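import Pool.Agent.K4H38.CW.TaskA

set_option autoImplicit false
set_option linter.unusedSectionVars false

/-!
# The sharp bound for the dimensions of the spaces of `TaskA` (Task E)

(helper32) Under the hypotheses of `algA` the dimension of `G l` is at most the coefficient of `t ^ l`
in `(1 + t + ⋯ + t ^ (k - 1)) ^ n`, and the sum of these dimensions is at most `k ^ n`.
-/

namespace K4H38CX

open MvPolynomial H350MG Module K4H38FP K4H38CW

noncomputable section

/-- regular sequences in the sense of `TH144.MB` -/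
lemma nz_of_reg {σ : Type} {K : Type} [Field K] (L : List (MvPolynomial σ K)) :
    ∀ I : Ideal (MvPolynomial σ K), Pool.Agent.TH144.MB.Reg I L →
      ∀ i (h : i < L.length), Pool.Agent.TH144.MB.NZ L[i] (I ⊔ Ideal.ofList (L.take i)) := by
  induction L with
  | nil => intro I _ i h; exact absurd h (by simp)
  | cons f L ih =>
    intro I hI i h
    rcases i with _ | i
    · simpa using hI.1
    · have h1 := ih _ hI.2 i (by simpa using h)
      rw [List.take_succ_cons, Ideal.ofList_cons, ← sup_assoc]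
      exact h1

lemma reg_conv {N : ℕ} {f : Fin N → MvPolynomial (Fin N) ℂ}
    (h : Pool.Agent.TH144.MB.Reg ⊥ (List.ofFn f)) : H503R3.QCI.Reg f := by
  intro i x hx
  have h1 := nz_of_reg _ _ h i.1 (by simp)
  have h2 : (⊥ : Ideal (MvPolynomial (Fin N) ℂ)) ⊔ Ideal.ofList ((List.ofFn f).take i.1) =
      Ideal.span (f '' {j | j < i}) := by
    rw [bot_sup_eq, Ideal.ofList]
    congr 1
    ext y
    simp only [Set.mem_ofPred_eq, Set.mem_image, List.mem_take_iff_getElem, List.getElem_ofFn,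
      List.length_ofFn]
    constructor
    · rintro ⟨j, hj, rfl⟩
      exact ⟨⟨j, by omega⟩, Fin.lt_def.mpr (by simp; omega), rfl⟩
    · rintro ⟨j, hj, rfl⟩
      exact ⟨j.1, by have := Fin.lt_def.mp hj; have := i.2; omega, rfl⟩
  rw [h2] at h1
  have h3 : (List.ofFn f)[i.1]'(by simp) = f i := by simp
  rw [h3] at h1
  exact h1 x hx

/-- a sharper form of `exists_gen`: the generators are a regular sequence -/
lemma exists_gen_reg {n k : ℕ} (hk : 1 ≤ k) (S : Submodule ℂ (MvPolynomial (Fin (n + 1)) ℂ))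
    (hSk : ∀ f ∈ S, f.IsHomogeneous k)
    (hz : ∀ w : Fin (n + 1) → ℂ, (∀ f ∈ S, eval w f = 0) → w = 0)
    {L : MvPolynomial (Fin (n + 1)) ℂ} (hL : L.IsHomogeneous 1) (hL0 : L ≠ 0) (hLS : L ^ k ∈ S) :
    ∃ f : Fin n → MvPolynomial (Fin (n + 1)) ℂ, (∀ i, f i ∈ S) ∧
      H503R3.QCI.Reg (Fin.cons L f : Fin (n + 1) → MvPolynomial (Fin (n + 1)) ℂ) := by
  obtain ⟨f, hf0, hfS, hreg⟩ := exists_regular S hz hLS (pow_ne_zero k hL0)
  refine ⟨fun i => f i.succ, fun i => hfS _, ?_⟩
  set g : Fin (n + 1) → MvPolynomial (Fin (n + 1)) ℂ := Fin.cons L fun i => f i.succ with hg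
  set d : Fin (n + 1) → ℕ := Fin.cons 1 fun _ => k with hd
  have hgd : ∀ i, (g i).IsHomogeneous (d i) ∧ 0 < d i := by
    intro i
    refine Fin.cases ?_ (fun j => ?_) i
    · simpa [hg, hd] using hL
    · have := hSk _ (hfS j.succ)
      simp only [hg, hd, Fin.cons_succ]
      exact ⟨this, by omega⟩
  obtain ⟨h1, _⟩ := Pool.Agent.TH144.MB.square (K := ℂ) (σ := Fin (n + 1))
    (List.ofFn fun i => (g i, d i)) []
    (by
      intro x hx
      rw [List.mem_ofFn] at hx
      obtain ⟨i, rfl⟩ := hx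
      exact hgd i)
    (by simp)
    (by
      intro w _ hw
      have hw' : ∀ i, eval w (g i) = 0 := fun i => hw (g i, d i) (by
        rw [List.mem_ofFn]; exact ⟨i, rfl⟩)
      refine no_zero_of_reg f (fun _ => k) (fun i => hSk _ (hfS i)) (fun _ => hk) hreg w ?_
      intro i
      refine Fin.cases ?_ (fun j => ?_) i
      · have h2 := hw' 0
        simp only [hg, Fin.cons_zero] at h2
        rw [hf0, map_pow, h2, zero_pow (by omega)]
      · have h2 := hw' j.succ
        simpa only [hg, Fin.cons_succ] using h2)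
  rw [List.map_nil, List.nil_append, List.map_ofFn] at h1
  exact reg_conv h1

/-- the orthogonal complement of an ideal in degree `l` -/
lemma finrank_le_of_orth {N l : ℕ} (I : Ideal (MvPolynomial (Fin N) ℂ))
    (G : Submodule ℂ (MvPolynomial (Fin N) ℂ)) (hG : ∀ F ∈ G, F.IsHomogeneous l)
    (h : ∀ F ∈ G, ∀ p ∈ I, Bp p F = 0) :
    finrank ℂ G + finrank ℂ (H503R3.QCI.gr I l) ≤
      finrank ℂ (homogeneousSubmodule (Fin N) ℂ l) := by
  let V := homogeneousSubmodule (Fin N) ℂ l
  have hGV : G ≤ V := fun F hF => hG F hF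
  let W : Submodule ℂ V := (H503R3.QCI.gr I l).comap V.subtype
  let Ψ : G →ₗ[ℂ] Dual ℂ V := (LinearMap.domRestrict' V).comp ((Bp.flip).comp G.subtype)
  have hΨ : ∀ (F : G) (p : V), Ψ F p = Bp (p : MvPolynomial (Fin N) ℂ) (F : MvPolynomial (Fin N) ℂ) :=
    fun F p => rfl
  have hinj : Function.Injective Ψ := by
    rw [injective_iff_map_eq_zero]
    intro F hF
    have h1 : (F : MvPolynomial (Fin N) ℂ) = 0 := by
      refine eq_zero_of_Bp (hG F F.2) fun p hp => ?_
      have h2 := congrArg (fun φ : Dual ℂ V => φ ⟨p, hp⟩) hF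
      exact h2
    exact Subtype.ext h1
  have hrange : LinearMap.range Ψ ≤ W.dualAnnihilator := by
    rintro _ ⟨F, rfl⟩
    rw [Submodule.mem_dualAnnihilator]
    intro p hp
    rw [hΨ]
    exact h F F.2 p hp.1
  have h1 : finrank ℂ G ≤ finrank ℂ W.dualAnnihilator := by
    rw [← LinearMap.finrank_range_of_inj hinj]
    exact Submodule.finrank_mono hrange
  have h2 := Subspace.finrank_add_finrank_dualAnnihilator_eq W
  have h3 : finrank ℂ W = finrank ℂ (H503R3.QCI.gr I l) := by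
    have h4 : (H503R3.QCI.gr I l) ≤ V := inf_le_right
    exact (Submodule.comapSubtypeEquivOfLe h4).finrank_eq
  rw [← h3]
  change _ ≤ finrank ℂ V
  omega

/-- `1 + t + ⋯ + t ^ (k - 1)` -/
def gp (k : ℕ) : Polynomial ℕ := ∑ j ∈ Finset.range k, Polynomial.X ^ j

lemma gp_coeff (k i : ℕ) : (gp k).coeff i = if i < k then 1 else 0 := by
  unfold gp
  rw [Polynomial.finsetSum_coeff]
  simp only [Polynomial.coeff_X_pow]
  rw [Finset.sum_ite_eq]
  simp only [Finset.mem_range]

lemma gp_natDegree (k : ℕ) : (gp k).natDegree ≤ k - 1 := by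
  rw [Polynomial.natDegree_le_iff_coeff_eq_zero]
  intro N hN
  rw [gp_coeff, if_neg (by omega)]

lemma gp_pow_natDegree (k n : ℕ) : (gp k ^ n).natDegree ≤ n * (k - 1) :=
  Polynomial.natDegree_pow_le_of_le n (gp_natDegree k)

lemma gp_reflect {k : ℕ} (hk : 1 ≤ k) : Polynomial.reflect (k - 1) (gp k) = gp k := by
  ext i
  rw [Polynomial.coeff_reflect, gp_coeff, gp_coeff]
  by_cases hi : i ≤ k - 1
  · rw [Polynomial.revAt_le hi, if_pos (by omega), if_pos (by omega)]
  · rw [Polynomial.revAt_eq_self_of_lt (by omega)]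

lemma gp_pow_reflect {k : ℕ} (hk : 1 ≤ k) (n : ℕ) :
    Polynomial.reflect (n * (k - 1)) (gp k ^ n) = gp k ^ n := by
  induction n with
  | zero =>
    ext i
    rw [Polynomial.coeff_reflect, zero_mul, pow_zero]
    rcases Nat.eq_zero_or_pos i with rfl | hi
    · rw [Polynomial.revAt_le le_rfl, Nat.sub_zero]
    · rw [Polynomial.revAt_eq_self_of_lt hi]
  | succ n ih =>
    rw [pow_succ, Nat.succ_mul, Polynomial.reflect_mul _ _ (gp_pow_natDegree k n)
      (gp_natDegree k), ih, gp_reflect hk]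

lemma gp_pow_coeff_symm {k : ℕ} (hk : 1 ≤ k) (n : ℕ) {l : ℕ} (hl : l ≤ n * (k - 1)) :
    (gp k ^ n).coeff l = (gp k ^ n).coeff (n * (k - 1) - l) := by
  conv_lhs => rw [← gp_pow_reflect hk n]
  rw [Polynomial.coeff_reflect, Polynomial.revAt_le hl]

lemma gp_pow_coeff_le (k n l : ℕ) : (gp k ^ (n + 1)).coeff l ≤ (l + n).choose n := by
  induction n generalizing l with
  | zero =>
    rw [zero_add, pow_one, gp_coeff, Nat.choose_zero_right]
    split_ifs <;> omega
  | succ n ih =>
    rw [pow_succ, Polynomial.coeff_mul, Finset.Nat.sum_antidiagonal_eq_sum_range_succ_mk]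
    have h1 : ∀ i ∈ Finset.range (l + 1), (gp k ^ (n + 1)).coeff i * (gp k).coeff (l - i) ≤
        (i + n).choose n := by
      intro i _
      rw [gp_coeff]
      split_ifs
      · rw [mul_one]; exact ih i
      · rw [mul_zero]; exact Nat.zero_le _
    refine (Finset.sum_le_sum h1).trans ?_
    rw [Nat.sum_range_add_choose]
    exact le_of_eq (by congr 1)

lemma gp_pow_sum_le (k n L : ℕ) : ∑ l ∈ Finset.range L, (gp k ^ n).coeff l ≤ k ^ n := by
  have h1 : (gp k ^ n).eval 1 = k ^ n := by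
    rw [Polynomial.eval_pow]
    congr 1
    unfold gp
    rw [Polynomial.eval_finsetSum]
    simp
  rw [← h1, Polynomial.eval_eq_sum_range' (n := max L ((gp k ^ n).natDegree + 1)) (by
    exact lt_of_lt_of_le (Nat.lt_succ_self _) (le_max_right _ _))]
  simp only [one_pow, mul_one]
  exact Finset.sum_le_sum_of_subset (by
    intro x hx
    rw [Finset.mem_range] at *
    exact lt_of_lt_of_le hx (le_max_left _ _))

lemma cip_eq (n k : ℕ) : H503R3.QCI.cip (Fin.cons 1 (fun _ => k) : Fin (n + 1) → ℕ) =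
    (gp k ^ n).map (Nat.castRingHom ℤ) := by
  unfold H503R3.QCI.cip
  rw [Fin.prod_univ_succ]
  simp only [Fin.cons_zero, Fin.cons_succ, Finset.sum_range_one, pow_zero, one_mul,
    Finset.prod_const, Finset.card_univ, Fintype.card_fin]
  rw [Polynomial.map_pow]
  congr 1
  unfold gp
  rw [Polynomial.map_sum]
  simp

theorem algB {n : ℕ} {v : Fin (n + 1) → ℂ} (hv : v ≠ 0) {k : ℕ} (hk : 1 ≤ k)
    (G : ℕ → Submodule ℂ (MvPolynomial (Fin (n + 1)) ℂ)) (hle : ∀ l, G l ≤ QQ l v)
    (hder : ∀ l (u : Fin (n + 1) → ℂ), ∀ F ∈ G (l + 1), D u F ∈ G l)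
    (hno : ∀ w : Fin (n + 1) → ℂ, w ≠ 0 → dt w v = 0 → lin w ^ k ∉ G k) (l : ℕ) :
    finrank ℂ (G l) ≤ (gp k ^ n).coeff l := by
  have hhom : ∀ l, ∀ F ∈ G l, F.IsHomogeneous l := fun l F hF => (hle l hF).1
  have hDv : ∀ l, ∀ F ∈ G l, D v F = 0 := fun l F hF => (hle l hF).2
  have hlv : ∀ (a : MvPolynomial (Fin (n + 1)) ℂ) (l : ℕ), ∀ F ∈ G l, Bp (lin v * a) F = 0 := by
    intro a l F hF
    rw [lin_eq, Bp_lin_mul, ← D_apply, hDv l F hF, map_zero]
  have hort : ∀ f ∈ orth k (G k), ∀ (a : MvPolynomial (Fin (n + 1)) ℂ) (l : ℕ), ∀ F ∈ G l,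
      Bp (f * a) F = 0 := by
    intro f hf a
    induction a using MvPolynomial.induction_on with
    | C c =>
      intro l F hF
      rw [mul_comm, ← smul_eq_C_mul, map_smul, LinearMap.smul_apply]
      rcases eq_or_ne k l with rfl | hkl
      · rw [hf.2 F hF, smul_zero]
      · rw [Bp_deg hkl hf.1 (hhom l F hF), smul_zero]
    | add p q hp hq =>
      intro l F hF
      rw [mul_add, map_add, LinearMap.add_apply, hp l F hF, hq l F hF, add_zero]
    | mul_X p i hp =>
      intro l F hF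
      have h1 : f * (p * X i) = X i * (f * p) := by ring
      rw [h1, Bp_X, ← D_single]
      rcases Nat.eq_zero_or_pos l with rfl | hl
      · rw [D_zero_hom ((hle 0 hF).1), map_zero]
      · obtain ⟨l', rfl⟩ := Nat.exists_eq_add_of_le' hl
        exact hp l' _ (hder l' _ F hF)
  have hL0 : lin v ≠ 0 := by
    intro h0
    apply hv
    funext i
    have h1 := congrArg (pderiv i) h0
    rw [lin_eq, pderiv_lin, map_zero] at h1
    exact (C_eq_zero (σ := Fin (n + 1))).1 h1
  have hLS : lin v ^ k ∈ orth k (G k) := by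
    refine ⟨linpow_hom v k, fun F hF => ?_⟩
    obtain ⟨k', rfl⟩ := Nat.exists_eq_add_of_le' hk
    rw [pow_succ']
    exact hlv _ _ F hF
  obtain ⟨f, hfS, hreg⟩ := exists_gen_reg hk (orth k (G k)) (fun f hf => hf.1) (by
    intro w hw
    by_contra hw0
    refine hno w hw0 ?_ (pow_mem_of_orth (hhom k) hw)
    have h1 := hw _ hLS
    rw [map_pow, eval_lin'] at h1
    exact pow_eq_zero_iff (by omega) |>.1 h1) (lin_hom v) hL0 hLS
  set g : Fin (n + 1) → MvPolynomial (Fin (n + 1)) ℂ := Fin.cons (lin v) f with hg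
  have key := finrank_le_of_orth (Ideal.span (Set.range g)) (G l) (hhom l) (by
    intro F hF p hp
    have key : ∀ a : MvPolynomial (Fin (n + 1)) ℂ, Bp (a * p) F = 0 := by
      refine Submodule.span_induction (p := fun q _ => ∀ a : MvPolynomial (Fin (n + 1)) ℂ,
        Bp (a * q) F = 0) ?_ ?_ ?_ ?_ hp
      · rintro q ⟨i, rfl⟩ a
        rw [mul_comm]
        refine Fin.cases ?_ (fun j => ?_) i
        · exact hlv a l F hF
        · exact hort _ (hfS j) a l F hF
      · intro a
        rw [mul_zero, map_zero, LinearMap.zero_apply]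
      · intro x y _ _ hx hy a
        rw [mul_add, map_add, LinearMap.add_apply, hx, hy, add_zero]
      · intro b x _ hx a
        rw [smul_eq_mul, ← mul_assoc]
        exact hx _
    have h1 := key 1
    rwa [one_mul] at h1)
  have hHS := H503R3.QCI.HS_ci g (Fin.cons 1 (fun _ => k)) (by
    intro i
    refine Fin.cases ?_ (fun j => ?_) i
    · simpa [hg] using lin_hom v
    · simpa [hg] using (hfS j).1) hreg
  have h2 := congrArg (PowerSeries.coeff l) hHS
  rw [cip_eq, H503R3.QCI.HS, PowerSeries.coeff_mk, Polynomial.coeff_coe, Polynomial.coeff_map] at h2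
  have h3 : ((finrank ℂ (homogeneousSubmodule (Fin (n + 1)) ℂ l) : ℤ) -
      finrank ℂ (H503R3.QCI.gr (Ideal.span (Set.range g)) l)) = ((gp k ^ n).coeff l : ℤ) := h2
  omega

/-- TASK E -/
theorem algA_dim {n : ℕ} (hn : 1 ≤ n) {v : Fin (n + 1) → ℂ} (hv : v ≠ 0) {k : ℕ} (hk : 1 ≤ k)
    (G : ℕ → Submodule ℂ (MvPolynomial (Fin (n + 1)) ℂ)) (hle : ∀ l, G l ≤ QQ l v)
    (hder : ∀ l (u : Fin (n + 1) → ℂ), ∀ F ∈ G (l + 1), D u F ∈ G l)
    (hno : ∀ w : Fin (n + 1) → ℂ, w ≠ 0 → dt w v = 0 → lin w ^ k ∉ G k) :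
    (∀ l, l ≤ n * (k - 1) → finrank ℂ (G l) ≤ (n * (k - 1) - l + n - 1).choose (n - 1)) ∧
      ∀ L, ∑ l ∈ Finset.range L, finrank ℂ (G l) ≤ k ^ n := by
  refine ⟨fun l hl => ?_, fun L => ?_⟩
  · obtain ⟨m, rfl⟩ := Nat.exists_eq_add_of_le' hn
    have h1 := algB hv hk G hle hder hno l
    rw [gp_pow_coeff_symm hk (m + 1) hl] at h1
    exact h1.trans (gp_pow_coeff_le k m _)
  · exact (Finset.sum_le_sum fun l _ => algB hv hk G hle hder hno l).trans (gp_pow_sum_le k n L)

end

end K4H38CX
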