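import Pool.Agent.K4H38.CX.F1b

set_option autoImplicit false
set_option linter.unusedSectionVars false

/-!
# A general linear form does not divide to a high power (Task F1, helper32)
-/

namespace K4H38CX

open MvPolynomial Module H350MG K4H38FP

noncomputable section

variable {n : ℕ}

lemma lf_single (a : Fin n) : lf (Pi.single a 1) = X a := by
  unfold lf
  rw [Finset.sum_eq_single a]
  · rw [Pi.single_eq_same, C_1, one_mul]
  · intro b _ hb
    rw [Pi.single_eq_of_ne hb, C_0, zero_mul]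
  · intro h; exact absurd (Finset.mem_univ a) h

lemma chain_mem (W : Submodule ℂ (MvPolynomial (Fin n) ℂ)) {l : ℕ}
    (hW : W ≤ homogeneousSubmodule (Fin n) ℂ l) {u : Fin n → ℂ} (hu : u ≠ 0) {i0 : ℕ}
    (hil : i0 ≤ l) (hmin : ∀ i ≤ l, ∀ u' : Fin n → ℂ, u' ≠ 0 →
      finrank ℂ (LinearMap.ker (LL W l i u)) ≤ finrank ℂ (LinearMap.ker (LL W l i u')))
    {q0 : MvPolynomial (Fin n) ℂ} (hg : lf u ^ i0 * q0 ∈ W) :
    ∀ (j : ℕ) (κ : Fin n →₀ ℕ), κ.degree = j → j ≤ i0 → ∃ F ∈ W, ∃ r,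
      F = lf u ^ (i0 - j) * (monomial κ 1 * q0 + lf u * r) := by
  intro j
  induction j with
  | zero =>
    intro κ hκ _
    rw [Finsupp.degree_eq_zero_iff] at hκ
    subst hκ
    refine ⟨_, hg, 0, ?_⟩
    rw [mul_zero, add_zero, Nat.sub_zero, monomial_zero', C_1, one_mul]
  | succ j ih =>
    intro κ hκ hj
    obtain ⟨a, ha⟩ : ∃ a, κ a ≠ 0 := by
      by_contra hcon
      push Not at hcon
      have : κ = 0 := by ext i; simpa using hcon i
      rw [this] at hκ
      simp at hκ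
    set μ : Fin n →₀ ℕ := κ - Finsupp.single a 1 with hμ
    have hκμ : κ = μ + Finsupp.single a 1 := by
      rw [hμ, tsub_add_cancel_of_le]
      rw [Finsupp.single_le_iff]
      omega
    have hdeg : μ.degree = j := by
      have : κ.degree = μ.degree + 1 := by
        rw [hκμ, map_add, Finsupp.degree_single]
      omega
    obtain ⟨F', hF', r, hr⟩ := ih μ hdeg (by omega)
    rw [hr] at hF'
    obtain ⟨F, hF, q', hq'⟩ := deriv_mem W hW hu (i := i0 - j) (by omega) (by omega)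
      (hmin _ (by omega)) hF' (Pi.single a 1)
    refine ⟨F, hF, X a * r + q', ?_⟩
    have h1 : (monomial κ 1 : MvPolynomial (Fin n) ℂ) = X a * monomial μ 1 := by
      rw [hκμ, X, monomial_mul, one_mul, add_comm]
    have h2 : i0 - j - 1 = i0 - (j + 1) := by omega
    rw [hq', lf_single, h1, h2]
    ring

theorem genericF1 {n m l : ℕ} (hn : 1 ≤ n) (W : Submodule ℂ (MvPolynomial (Fin n) ℂ))
    (hW : W ≤ homogeneousSubmodule (Fin n) ℂ l) (h : finrank ℂ W < (m + n - 1).choose (n - 1)) :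
    ∃ u : Fin n → ℂ, u ≠ 0 ∧ ∀ F ∈ W, (∑ a, C (u a) * X a) ^ m ∣ F → F = 0 := by
  classical
  have : FiniteDimensional ℂ W := Submodule.finiteDimensional_of_le hW
  obtain ⟨u, hu, hmin⟩ := exists_general hn W l
  refine ⟨u, hu, ?_⟩
  intro F hF hdiv
  by_contra hF0
  let P : ℕ → Prop := fun j => ∃ F ∈ W, F ≠ 0 ∧ lf u ^ j ∣ F
  have hPl : ∀ j, P j → j ≤ l := by
    rintro j ⟨G, hG, hG0, q, rfl⟩
    by_contra hj
    apply hG0
    have h1 : (lf u ^ j).IsHomogeneous j := by
      have := (lf_hom u).pow j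
      rwa [one_mul] at this
    have h2 := Pool.Agent.TH144.MB.comp_mul_lt h1 q (m := l) (by omega)
    have h3 : (lf u ^ j * q) ∈ homogeneousSubmodule (Fin n) ℂ l := hW hG
    rwa [homogeneousComponent_of_mem h3, if_pos rfl] at h2
  have hPm : P m := ⟨F, hF, hF0, hdiv⟩
  set i0 := Nat.findGreatest P l with hi0
  have hspec : P i0 := Nat.findGreatest_spec (hPl m hPm) hPm
  have hm : m ≤ i0 := Nat.le_findGreatest (hPl m hPm) hPm
  obtain ⟨G, hG, hG0, q0, rfl⟩ := hspec
  have hq0 : ¬ lf u ∣ q0 := by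
    rintro ⟨q1, rfl⟩
    have h1 : P (i0 + 1) := ⟨_, hG, hG0, q1, by ring⟩
    have h2 := Nat.le_findGreatest (hPl _ h1) h1
    rw [← hi0] at h2
    omega
  obtain ⟨b0, hb0⟩ : ∃ a, u a ≠ 0 := by
    by_contra hcon
    push Not at hcon
    exact hu (funext hcon)
  have hil : i0 ≤ l := Nat.findGreatest_le l
  have h1 := count (i0 := i0) hn hb0 hq0 W (fun κ hκ =>
    chain_mem W hW hu hil hmin hG κ.degree κ rfl hκ)
  have h2 : (m + n - 1).choose (n - 1) ≤ (i0 + n - 1).choose (n - 1) :=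
    Nat.choose_le_choose _ (by omega)
  omega

end

end K4H38CX
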