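import Mathlib
import Pool.Agent.K4H38.FP.Core
import Pool.Agent.K4H77.CW.TaskC

/-!
Definitions for the collision of points in hyperplanes.
-/

set_option autoImplicit false
set_option linter.unusedSectionVars false

namespace K4H38CX

open MvPolynomial

noncomputable section

/-- the product of the `j`-th powers of the first `s` linear forms -/
def prodLin {n s : ℕ} (u : Fin s × Fin n → ℂ) (j : ℕ) : MvPolynomial (Fin n) ℂ :=
  ∏ i : Fin s, (∑ a, C (u (i, a)) * X a) ^ j

/-- the leading forms at the origin -/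
def Lead {E : ℕ} (W : Submodule ℂ (MvPolynomial (Fin (E + 1)) ℂ)) (l : ℕ) :
    Submodule ℂ (MvPolynomial (Fin (E + 1)) ℂ) :=
  (W ⊓ ⨅ i : Fin l, LinearMap.ker (homogeneousComponent i.1)).map (homogeneousComponent l)

/-- the restriction to `x 0 = 0` -/
def psi (E : ℕ) : MvPolynomial (Fin (E + 1 + 1)) ℂ →ₐ[ℂ] MvPolynomial (Fin (E + 1)) ℂ :=
  aeval (Fin.cons 0 X)

end

end K4H38CX
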