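import Mathlib
import Pool.Agent.K4H38.CX.Defs
import Pool.Agent.K4H38.CW.Cert

/-! # Task F2: generic products of powers of linear forms divide no nonzero form of a small system

`genericF_of` reduces the statement on `s` generic linear forms to the one on the power
`s * j` of a single linear form (`genericF1`). -/

set_option autoImplicit false
set_option linter.unusedSectionVars false

namespace K4H38CX

open MvPolynomial H350MG Module K4H38FP K4H38CW

noncomputable section

/-- multiplication by a polynomial family is a polynomial family -/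
def PolyMul {ι : Type} {n : ℕ} (G : (ι → ℂ) → MvPolynomial (Fin n) ℂ) : Prop :=
  ∀ (q : MvPolynomial (Fin n) ℂ) (ψ : MvPolynomial (Fin n) ℂ →ₗ[ℂ] ℂ),
    IsPoly (fun u => ψ (G u * q))

lemma PolyMul.one {ι : Type} {n : ℕ} :
    PolyMul (fun _ : ι → ℂ => (1 : MvPolynomial (Fin n) ℂ)) := fun q ψ =>
  H350MG.IsPoly.const (ψ (1 * q))

lemma PolyMul.form {ι : Type} {n : ℕ} (g : Fin n → ι) {G : (ι → ℂ) → MvPolynomial (Fin n) ℂ}
    (hG : PolyMul G) : PolyMul (fun u => (∑ a, C (u (g a)) * X a) * G u) := by
  intro q ψ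
  have h : (fun u : ι → ℂ => ψ ((∑ a, C (u (g a)) * X a) * G u * q)) =
      fun u => ∑ a, u (g a) * ψ (G u * (X a * q)) := by
    funext u
    rw [Finset.sum_mul, Finset.sum_mul, map_sum]
    refine Finset.sum_congr rfl fun a _ => ?_
    rw [← smul_eq_mul (a := u (g a)), ← map_smul, smul_eq_C_mul]
    congr 1
    ring
  rw [h]
  exact IsPoly.sum _ fun a _ => (IsPoly.coord (g a)).mul (hG _ ψ)

lemma PolyMul.pow_form {ι : Type} {n : ℕ} (g : Fin n → ι) (e : ℕ)
    {G : (ι → ℂ) → MvPolynomial (Fin n) ℂ} (hG : PolyMul G) :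
    PolyMul (fun u => (∑ a, C (u (g a)) * X a) ^ e * G u) := by
  induction e with
  | zero => simpa using hG
  | succ e ih =>
    have h := ih.form g
    simp only [pow_succ', mul_assoc]
    exact h

lemma polyMul_prod {n s : ℕ} (j : ℕ) (S : Finset (Fin s)) :
    PolyMul (fun u : Fin s × Fin n → ℂ =>
      (∏ i ∈ S, (∑ a, C (u (i, a)) * X a) ^ j : MvPolynomial (Fin n) ℂ)) := by
  classical
  induction S using Finset.induction_on with
  | empty => simpa using PolyMul.one
  | insert i S hi ih =>
    have h := ih.pow_form (fun a => (i, a)) j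
    simp only [Finset.prod_insert hi]
    exact h

lemma prodLin_homF {n s : ℕ} (u : Fin s × Fin n → ℂ) (j : ℕ) :
    (prodLin u j).IsHomogeneous (s * j) := by
  have h1 : ∀ i : Fin s, ((∑ a, C (u (i, a)) * X a : MvPolynomial (Fin n) ℂ)).IsHomogeneous 1 := by
    intro i
    refine IsHomogeneous.sum _ _ _ fun a _ => ?_
    simpa using (isHomogeneous_C (Fin n) (u (i, a))).mul (isHomogeneous_X ℂ a)
  have h2 := IsHomogeneous.prod Finset.univ
    (fun i : Fin s => ((∑ a, C (u (i, a)) * X a : MvPolynomial (Fin n) ℂ)) ^ j) (fun _ => j)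
    (fun i _ => by simpa using (h1 i).pow j)
  simpa [prodLin] using h2

/-- the quotient of a form by a form can be taken homogeneous -/
lemma hom_quot {n d l : ℕ} {G F : MvPolynomial (Fin n) ℂ} (hG : G.IsHomogeneous d)
    (hF : F.IsHomogeneous l) (hd : d ≤ l) (h : G ∣ F) :
    ∃ q : MvPolynomial (Fin n) ℂ, q.IsHomogeneous (l - d) ∧ F = G * q := by
  obtain ⟨q, hq⟩ := h
  refine ⟨homogeneousComponent (l - d) q, homogeneousComponent_isHomogeneous _ _, ?_⟩
  have h1 : homogeneousComponent l (G * q) = G * homogeneousComponent (l - d) q := by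
    conv_lhs => rw [← sum_homogeneousComponent q, Finset.mul_sum, map_sum]
    have h2 : ∀ i, homogeneousComponent l (G * homogeneousComponent i q) =
        if i = l - d then G * homogeneousComponent (l - d) q else 0 := by
      intro i
      rw [homogeneousComponent_of_mem (hG.mul (homogeneousComponent_isHomogeneous i q))]
      by_cases hi : i = l - d
      · rw [if_pos (by omega), if_pos hi, hi]
      · rw [if_neg (by omega), if_neg hi]
    simp only [h2]
    rw [Finset.sum_ite_eq']
    split_ifs with h3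
    · rfl
    · rw [homogeneousComponent_eq_zero, mul_zero]
      rw [Finset.mem_range] at h3
      omega
  rw [← h1, ← hq, homogeneousComponent_eq_self hF]

/-- TASK F2: the statement for `s` generic linear forms follows from that for one form -/
theorem genericF_of {n s j l : ℕ} (hn : 1 ≤ n) (W : Submodule ℂ (MvPolynomial (Fin n) ℂ))
    (hW : W ≤ homogeneousSubmodule (Fin n) ℂ l)
    (hF1 : ∃ u : Fin n → ℂ, u ≠ 0 ∧ ∀ F ∈ W, (∑ a, C (u a) * X a) ^ (s * j) ∣ F → F = 0) :
    ∃ Φ : MvPolynomial (Fin s × Fin n) ℂ, Φ ≠ 0 ∧ ∀ u, eval u Φ ≠ 0 →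
      ∀ F ∈ W, prodLin u j ∣ F → F = 0 := by
  classical
  obtain ⟨u0, hu0, hdiv⟩ := hF1
  have hform0 : ∀ v : Fin n → ℂ, v ≠ 0 → (∑ a, C (v a) * X a : MvPolynomial (Fin n) ℂ) ≠ 0 := by
    intro v hv h
    apply hv
    funext a
    have h1 := congrArg (coeff (Finsupp.single a 1)) h
    rw [coeff_sum] at h1
    simp only [coeff_C_mul, coeff_X, coeff_zero, mul_ite, mul_one, mul_zero] at h1
    rw [Finset.sum_eq_single a] at h1
    · simpa using h1
    · intro b _ hb
      rw [if_neg]
      intro h2
      exact hb (Finsupp.single_left_injective one_ne_zero h2)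
    · simp
  by_cases hl : l < s * j
  · -- the product of forms has larger degree
    refine ⟨∏ i : Fin s, X (i, ⟨0, hn⟩), ?_, ?_⟩
    · exact Finset.prod_ne_zero_iff.2 fun i _ => X_ne_zero _
    · intro u hu F hF hdvd
      rw [map_prod, Finset.prod_ne_zero_iff] at hu
      by_contra hF0
      obtain ⟨q, hq⟩ := hdvd
      have hp : prodLin u j ≠ 0 := by
        unfold prodLin
        refine Finset.prod_ne_zero_iff.2 fun i _ => pow_ne_zero _ (hform0 (fun a => u (i, a)) ?_)
        intro h
        apply hu i (Finset.mem_univ _)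
        rw [eval_X]
        exact congrFun h ⟨0, hn⟩
      have hq0 : q ≠ 0 := by
        rintro rfl
        exact hF0 (by rw [hq, mul_zero])
      have h1 : F.totalDegree = l := (hW hF : F.IsHomogeneous l).totalDegree hF0
      have h2 : (prodLin u j).totalDegree = s * j := (prodLin_homF u j).totalDegree hp
      have h3 : F.totalDegree = (prodLin u j).totalDegree + q.totalDegree := by
        rw [hq, totalDegree_mul_of_isDomain hp hq0]
      omega
  · push Not at hl
    have : FiniteDimensional ℂ W := Submodule.finiteDimensional_of_le hW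
    let L : (Fin s × Fin n → ℂ) → (W × Rj ℂ (Fin n) (l - s * j)) →ₗ[ℂ] MvPolynomial (Fin n) ℂ :=
      fun u => W.subtype ∘ₗ LinearMap.fst ℂ _ _ -
        (LinearMap.mulLeft ℂ (prodLin u j)) ∘ₗ (Rj ℂ (Fin n) (l - s * j)).subtype ∘ₗ
          LinearMap.snd ℂ _ _
    have hLa : ∀ u x, L u x = x.1.1 - prodLin u j * x.2.1 := fun u x => rfl
    have hL : ∀ x (ψ : MvPolynomial (Fin n) ℂ →ₗ[ℂ] ℂ), IsPoly (fun u => ψ (L u x)) := by
      intro x ψ
      simp only [hLa, map_sub]
      exact isPoly_sub (H350MG.IsPoly.const _) (polyMul_prod j Finset.univ _ ψ)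
    obtain ⟨Φ, h0, hΦ⟩ := generic_ker L hL (fun p => u0 p.2)
    have hker0 : LinearMap.ker (L fun p => u0 p.2) = ⊥ := by
      rw [LinearMap.ker_eq_bot']
      intro x hx
      rw [hLa, sub_eq_zero] at hx
      have hpl : prodLin (fun p : Fin s × Fin n => u0 p.2) j =
          (∑ a, C (u0 a) * X a) ^ (s * j) := by
        unfold prodLin
        simp only
        rw [Finset.prod_const, Finset.card_univ, Fintype.card_fin, ← pow_mul, mul_comm]
      rw [hpl] at hx
      have h1 : x.1.1 = 0 := hdiv _ x.1.2 ⟨_, hx⟩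
      have h2 : x.2.1 = 0 := by
        rw [h1] at hx
        rcases mul_eq_zero.1 hx.symm with h | h
        · exact absurd h (pow_ne_zero _ (hform0 u0 hu0))
        · exact h
      exact Prod.ext (Subtype.ext h1) (Subtype.ext h2)
    refine ⟨Φ, h0, fun u hu F hF hdvd => ?_⟩
    have h1 := hΦ u hu
    rw [hker0, finrank_bot] at h1
    have h2 : LinearMap.ker (L u) = ⊥ := Submodule.finrank_eq_zero.1 (Nat.le_zero.1 h1)
    obtain ⟨q, hq, hFq⟩ := hom_quot (prodLin_homF u j) (hW hF) hl hdvd
    have h3 : L u (⟨F, hF⟩, ⟨q, hq⟩) = 0 := by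
      rw [hLa]
      show F - prodLin u j * q = 0
      rw [sub_eq_zero]
      exact hFq
    have h4 := (LinearMap.ker_eq_bot'.1 h2) _ h3
    exact congrArg (fun x : W × Rj ℂ (Fin n) (l - s * j) => x.1.1) h4

end

end K4H38CX
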