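import Mathlib
import Pool.Agent.K4H38.CX.TaskF1
import Pool.Agent.K4H38.CX.TaskF2

/-! # Task F: a product of powers of generic linear forms divides no form of a small system -/

set_option autoImplicit false
set_option linter.unusedSectionVars false

namespace K4H38CX

open MvPolynomial Module

noncomputable section

/-- TASK F -/
theorem genericF {n s j l : ℕ} (hn : 1 ≤ n) (W : Submodule ℂ (MvPolynomial (Fin n) ℂ))
    (hW : W ≤ homogeneousSubmodule (Fin n) ℂ l)
    (h : finrank ℂ W < (s * j + n - 1).choose (n - 1)) :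
    ∃ Φ : MvPolynomial (Fin s × Fin n) ℂ, Φ ≠ 0 ∧ ∀ u, eval u Φ ≠ 0 →
      ∀ F ∈ W, prodLin u j ∣ F → F = 0 :=
  genericF_of hn W hW (genericF1 hn W hW h)

end

end K4H38CX
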