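import Mathlib
import Pool.Agent.K4H38.CX.Defs
import Pool.Agent.TH176.FB.J7

/-!
Points in the hyperplanes `u i = 0` which kill all polynomials of small degree.
-/

set_option autoImplicit false
set_option linter.unusedSectionVars false

namespace K4H38CX

open MvPolynomial
open Pool.Agent.H932R5 (pt shift mem_pt_pow_iff shift_X shift_C)

noncomputable section

section order

variable {σ : Type} [DecidableEq σ]

theorem coeff_of_Xpow_mul {K : Type} [Field K] (i : σ) (j N : ℕ) (f : MvPolynomial σ K)
    (h : ∀ m : σ →₀ ℕ, Finsupp.degree m < N + j → coeff m (X i ^ j * f) = 0) :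
    ∀ m : σ →₀ ℕ, Finsupp.degree m < N → coeff m f = 0 := by
  intro m hm
  have h1 := h (Finsupp.single i j + m) (by
    rw [map_add, Finsupp.degree_single]
    omega)
  rw [X_pow_eq_monomial, coeff_monomial_mul, one_mul] at h1
  exact h1

theorem coeff_of_unit_mul {K : Type} [Field K] (N : ℕ) (R f : MvPolynomial σ K)
    (hR : coeff 0 R ≠ 0)
    (h : ∀ m : σ →₀ ℕ, Finsupp.degree m < N → coeff m (R * f) = 0) :
    ∀ m : σ →₀ ℕ, Finsupp.degree m < N → coeff m f = 0 := by
  have key : ∀ d : ℕ, d < N → ∀ m : σ →₀ ℕ, Finsupp.degree m = d → coeff m f = 0 := by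
    intro d
    induction d using Nat.strong_induction_on with
    | _ d ih =>
      intro hd m hm
      have h1 := h m (by omega)
      rw [coeff_mul, Finset.sum_eq_single (0, m)] at h1
      · exact (mul_eq_zero.1 h1).resolve_left hR
      · rintro ⟨a, b⟩ hab hne
        rw [Finset.HasAntidiagonal.mem_antidiagonal] at hab
        simp only at hab
        have h2 : Finsupp.degree a + Finsupp.degree b = d := by rw [← map_add, hab, hm]
        have h3 : Finsupp.degree a ≠ 0 := by
          intro h0
          rw [Finsupp.degree_eq_zero_iff] at h0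
          apply hne
          rw [h0, zero_add] at hab
          rw [h0, hab]
        rw [ih (Finsupp.degree b) (by omega) (by omega) b rfl, mul_zero]
      · intro hne
        exact absurd (Finset.HasAntidiagonal.mem_antidiagonal.2 (zero_add m)) hne
  exact fun m hm => key _ hm m rfl

end order

theorem totalDegree_aeval_le {σ τ : Type} [Fintype σ] (f : σ → MvPolynomial τ ℂ)
    (hf : ∀ a, (f a).totalDegree ≤ 1) (h : MvPolynomial σ ℂ) :
    (aeval f h).totalDegree ≤ h.totalDegree := by
  classical
  rw [aeval_def, eval₂_eq']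
  refine (totalDegree_finsetSum _ _).trans (Finset.sup_le fun m hm => ?_)
  have h1 := le_totalDegree hm
  refine (totalDegree_mul _ _).trans ?_
  have h2 : (algebraMap ℂ (MvPolynomial τ ℂ) (coeff m h)).totalDegree = 0 :=
    totalDegree_C _
  rw [h2, zero_add]
  refine (totalDegree_finsetProd _ _).trans ?_
  refine le_trans ?_ h1
  rw [Finsupp.sum_fintype _ _ (fun _ => rfl)]
  refine Finset.sum_le_sum fun a _ => ?_
  refine (totalDegree_pow _ _).trans ?_
  exact (Nat.mul_le_mul_left _ (hf a)).trans (by simp)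

section restrict

variable {E : ℕ}

/-- the restriction to the hyperplane `x i = 0` -/
def rhoG (E : ℕ) (i : Fin (E + 1)) :
    MvPolynomial (Fin (E + 1)) ℂ →ₐ[ℂ] MvPolynomial (Fin E) ℂ :=
  aeval (i.insertNth (0 : MvPolynomial (Fin E) ℂ) X)

theorem rhoG_X_self (i : Fin (E + 1)) : rhoG E i (X i) = 0 := by
  simp [rhoG]

theorem rhoG_X_succAbove (i : Fin (E + 1)) (j : Fin E) : rhoG E i (X (i.succAbove j)) = X j := by
  simp [rhoG]

/-- the extension of a polynomial on the hyperplane -/
def ext (E : ℕ) (i : Fin (E + 1)) : MvPolynomial (Fin E) ℂ →ₐ[ℂ] MvPolynomial (Fin (E + 1)) ℂ :=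
  rename i.succAbove

theorem X_dvd_sub_ext (i : Fin (E + 1)) (h : MvPolynomial (Fin (E + 1)) ℂ) :
    X i ∣ h - ext E i (rhoG E i h) := by
  have key : (Ideal.Quotient.mkₐ ℂ (Ideal.span {(X i : MvPolynomial (Fin (E + 1)) ℂ)})) =
      (Ideal.Quotient.mkₐ ℂ (Ideal.span {(X i : MvPolynomial (Fin (E + 1)) ℂ)})).comp
        ((ext E i).comp (rhoG E i)) := by
    apply algHom_ext
    intro a
    rcases Fin.eq_self_or_eq_succAbove i a with rfl | ⟨b, rfl⟩
    · rw [AlgHom.comp_apply, AlgHom.comp_apply, rhoG_X_self, map_zero, map_zero]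
      exact Ideal.Quotient.eq_zero_iff_mem.2 (Ideal.mem_span_singleton_self _)
    · rw [AlgHom.comp_apply, AlgHom.comp_apply, rhoG_X_succAbove, ext, rename_X]
  have h1 := AlgHom.congr_fun key h
  rw [AlgHom.comp_apply, AlgHom.comp_apply] at h1
  rw [← Ideal.mem_span_singleton]
  exact Ideal.Quotient.eq.1 h1

theorem X_dvd_of_rho (i : Fin (E + 1)) (h : MvPolynomial (Fin (E + 1)) ℂ)
    (h0 : rhoG E i h = 0) : X i ∣ h := by
  have := X_dvd_sub_ext i h
  rwa [h0, map_zero, sub_zero] at this

theorem totalDegree_rho (i : Fin (E + 1)) (h : MvPolynomial (Fin (E + 1)) ℂ) :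
    (rhoG E i h).totalDegree ≤ h.totalDegree := by
  refine totalDegree_aeval_le _ (fun a => ?_) h
  rcases Fin.eq_self_or_eq_succAbove i a with rfl | ⟨b, rfl⟩
  · simp
  · simp [totalDegree_X]

theorem sh_rho (i : Fin (E + 1)) (q : Fin E → ℂ) (h : MvPolynomial (Fin (E + 1)) ℂ) :
    Pool.Agent.H822.sh q (rhoG E i h) = rhoG E i (shift (i.insertNth 0 q) h) := by
  have key : (Pool.Agent.H822.sh q).comp (rhoG E i) =
      (rhoG E i).comp (shift (i.insertNth (0 : ℂ) q : Fin (E + 1) → ℂ)) := by
    apply algHom_ext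
    intro a
    rcases Fin.eq_self_or_eq_succAbove i a with rfl | ⟨b, rfl⟩
    · rw [AlgHom.comp_apply, AlgHom.comp_apply, rhoG_X_self, map_zero, shift_X]
      simp [rhoG_X_self]
    · rw [AlgHom.comp_apply, AlgHom.comp_apply, rhoG_X_succAbove, shift_X, map_add,
        rhoG_X_succAbove, Pool.Agent.H822.sh_X]
      simp [rhoG]
  exact AlgHom.congr_fun key h

theorem rhoG_mem_pow (i : Fin (E + 1)) (N : ℕ) (F : MvPolynomial (Fin (E + 1)) ℂ)
    (h : ∀ m : Fin (E + 1) →₀ ℕ, Finsupp.degree m < N → coeff m F = 0) :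
    ∀ m : Fin E →₀ ℕ, Finsupp.degree m < N → coeff m (rhoG E i F) = 0 := by
  rw [← mem_pow_idealOfVars_iff'] at h ⊢
  have h1 := Ideal.mem_map_of_mem (rhoG E i) h
  rw [Ideal.map_pow] at h1
  refine Ideal.pow_right_mono ?_ N h1
  have hI : idealOfVars (Fin (E + 1)) ℂ = Ideal.span (Set.range X) := rfl
  rw [hI, Ideal.map_span, Ideal.span_le]
  rintro _ ⟨_, ⟨a, rfl⟩, rfl⟩
  rcases Fin.eq_self_or_eq_succAbove i a with rfl | ⟨b, rfl⟩
  · show rhoG E a (X a) ∈ idealOfVars (Fin E) ℂ
    rw [rhoG_X_self]
    exact Ideal.zero_mem _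
  · show rhoG E i (X (i.succAbove b)) ∈ idealOfVars (Fin E) ℂ
    rw [rhoG_X_succAbove]
    exact Ideal.subset_span ⟨b, rfl⟩

end restrict

/-- The grid. -/
def SS (n : ℕ) : Finset ℂ := (Finset.range n).image fun a : ℕ => ((a : ℂ) + 1)

theorem card_SS (n : ℕ) : (SS n).card = n := by
  rw [SS, Finset.card_image_of_injective, Finset.card_range]
  intro a b h
  simpa using h

theorem ne_zero_of_mem_SS {n : ℕ} {c : ℂ} (h : c ∈ SS n) : c ≠ 0 := by
  obtain ⟨a, -, rfl⟩ := Finset.mem_image.1 h
  exact Nat.cast_add_one_ne_zero a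

/-- The statement in coordinates. -/
theorem killT {E k : ℕ} (T : Finset (Fin (E + 1))) (h2s : E + 1 ≤ 2 * T.card)
    (γ : MvPolynomial (Fin (E + 1)) ℂ) (hγ0 : γ ≠ 0)
    (hdeg : ∀ j, (∏ i ∈ T, X i) ^ j ∣ γ → γ.totalDegree + T.card * j ≤ (E + 1) * (k - 1))
    (hpt : ∀ i ∈ T, ∀ q : Fin E → ℂ, (∀ a, q a ∈ SS (E + 1)) →
      γ ∈ pt (i.insertNth 0 q : Fin (E + 1) → ℂ) ^ (k + 1)) : False := by
  classical
  set P : MvPolynomial (Fin (E + 1)) ℂ := ∏ i ∈ T, X i with hP
  have hPdeg : P.totalDegree = T.card := by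
    rw [hP]
    have h1 : ∀ T : Finset (Fin (E + 1)), (∏ i ∈ T, X i : MvPolynomial (Fin (E + 1)) ℂ) ≠ 0 ∧
        (∏ i ∈ T, X i : MvPolynomial (Fin (E + 1)) ℂ).totalDegree = T.card := by
      intro T
      induction T using Finset.induction_on with
      | empty => simp
      | insert a T ha ih =>
        rw [Finset.prod_insert ha, Finset.card_insert_of_notMem ha]
        refine ⟨mul_ne_zero (X_ne_zero a) ih.1, ?_⟩
        rw [totalDegree_mul_of_isDomain (X_ne_zero a) ih.1, ih.2, totalDegree_X]
        ring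
    exact (h1 T).2
  have hP0 : P ≠ 0 := Finset.prod_ne_zero_iff.2 fun i _ => X_ne_zero i
  have hPjdeg : ∀ j, (P ^ j).totalDegree = T.card * j := by
    intro j
    induction j with
    | zero => simp
    | succ j ih =>
      rw [pow_succ, totalDegree_mul_of_isDomain (pow_ne_zero _ hP0) hP0, ih, hPdeg]
      ring
  have key : ∀ j, P ^ j ∣ γ := by
    intro j
    induction j with
    | zero => simp
    | succ j ih =>
      have h1 := hdeg j ih
      obtain ⟨h, hh⟩ := ih
      have hh0 : h ≠ 0 := by rintro rfl; exact hγ0 (by rw [hh, mul_zero])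
      have h2 : γ.totalDegree = T.card * j + h.totalDegree := by
        rw [hh, totalDegree_mul_of_isDomain (pow_ne_zero _ hP0) hh0, hPjdeg]
      have h3 : (E + 1) * j ≤ 2 * T.card * j := Nat.mul_le_mul_right _ h2s
      have h4 : h.totalDegree + (E + 1) * j ≤ (E + 1) * (k - 1) := by nlinarith
      have h5 : j ≤ k - 1 := by
        by_contra hc
        push Not at hc
        have : (E + 1) * (k - 1) < (E + 1) * j := Nat.mul_lt_mul_of_pos_left hc (by omega)
        omega
      have hdvd : ∀ i ∈ T, X i ∣ h := by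
        intro i hi
        apply X_dvd_of_rho
        by_contra hne
        have h6 := Pool.Agent.TH176.FB.J7.mult_grid (SS (E + 1)) (by rw [card_SS]; omega) E
          (k + 1 - j) (rhoG E i h) (by
            intro q hq
            rw [sh_rho]
            apply rhoG_mem_pow
            have h7 := mem_pt_pow_iff.1 (hpt i hi q hq)
            set p : Fin (E + 1) → ℂ := i.insertNth 0 q with hp
            have hpi : p i = 0 := by rw [hp]; simp
            have hpne : ∀ a, a ≠ i → p a ≠ 0 := by
              intro a ha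
              obtain ⟨b, rfl⟩ := Fin.exists_succAbove_eq ha
              rw [hp]
              simpa using ne_zero_of_mem_SS (hq b)
            set R : MvPolynomial (Fin (E + 1)) ℂ := (∏ a ∈ T.erase i, (X a + C (p a))) ^ j with hR
            have hR0 : coeff 0 R ≠ 0 := by
              have : coeff 0 R = constantCoeff R := rfl
              rw [this, hR, map_pow, map_prod]
              refine pow_ne_zero _ (Finset.prod_ne_zero_iff.2 fun a ha => ?_)
              rw [map_add, constantCoeff_X, constantCoeff_C, zero_add]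
              exact hpne a (Finset.ne_of_mem_erase ha)
            have h8 : shift p γ = X i ^ j * (R * shift p h) := by
              rw [hh, map_mul, map_pow, hP, map_prod, ← Finset.mul_prod_erase T _ hi]
              simp only [shift_X]
              rw [hpi, C_0, add_zero, mul_pow, hR]
              ring
            rw [h8] at h7
            have h9 : k + 1 = (k + 1 - j) + j := by omega
            rw [h9] at h7
            exact coeff_of_unit_mul _ _ _ hR0 (coeff_of_Xpow_mul _ _ _ _ h7)) hne
        rw [card_SS] at h6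
        have h7 := totalDegree_rho i h
        have h8 : (k + 1 - j) * (E + 1) + (E + 1) * j ≤ (E + 1) * (k - 1) := by omega
        have h9 : (k + 1 - j) * (E + 1) + (E + 1) * j = (E + 1) * (k + 1) := by
          have : k + 1 = (k + 1 - j) + j := by omega
          conv_rhs => rw [this]
          ring
        rw [h9] at h8
        have := Nat.le_of_mul_le_mul_left h8 (by omega)
        omega
      have hPh : P ∣ h := by
        rw [hP]
        apply Finset.prod_dvd_of_isRelPrime
        · intro a _ b _ hab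
          have : Irreducible (X a : MvPolynomial (Fin (E + 1)) ℂ) := X_prime.irreducible
          refine (this.isRelPrime_iff_not_dvd).2 ?_
          rw [X_dvd_X]
          exact hab
        · exact hdvd
      rw [hh, pow_succ]
      exact mul_dvd_mul_left _ hPh
  have h1 := hdeg ((E + 1) * (k - 1) + 1) (key _)
  have h2 : 1 ≤ T.card := by omega
  have h3 := Nat.mul_le_mul_right ((E + 1) * (k - 1) + 1) h2
  omega

/-- TASK G -/
theorem kill {E s k : ℕ} (hs : s ≤ E + 1) (h2s : E + 1 ≤ 2 * s) (hk : 1 ≤ k)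
    (u : Fin s × Fin (E + 1) → ℂ) (hu : LinearIndependent ℂ fun i a => u (i, a)) :
    ∃ Pts : Finset (Fin (E + 1) → ℂ), Pts.card ≤ s * (E + 1) ^ E ∧
      ∀ γ : MvPolynomial (Fin (E + 1)) ℂ,
        (∀ j, prodLin u j ∣ γ → γ ≠ 0 → γ.totalDegree + s * j ≤ (E + 1) * (k - 1)) →
          (∀ p ∈ Pts, γ ∈ pt p ^ (k + 1)) → γ = 0 := by
  classical
  -- extend to a basis
  obtain ⟨b, τ, hbτ⟩ : ∃ (b : Module.Basis (Fin (E + 1)) ℂ (Fin (E + 1) → ℂ))
      (τ : Fin s ↪ Fin (E + 1)), ∀ i a, b (τ i) a = u (i, a) := by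
    let b0 := Module.Basis.extend hu.linearIndepOn_id
    have : Fintype (hu.linearIndepOn_id.extend (Set.subset_univ _)) :=
      FiniteDimensional.fintypeBasisIndex b0
    have hcard : Fintype.card (hu.linearIndepOn_id.extend (Set.subset_univ _)) = E + 1 := by
      rw [← Module.finrank_eq_card_basis b0, Module.finrank_fin_fun]
    let e := Fintype.equivFinOfCardEq hcard
    have hin : ∀ i : Fin s, (fun a => u (i, a)) ∈ hu.linearIndepOn_id.extend (Set.subset_univ _) :=
      fun i => hu.linearIndepOn_id.subset_extend _ ⟨i, rfl⟩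
    refine ⟨b0.reindex e, ⟨fun i => e ⟨_, hin i⟩, fun i j hij => ?_⟩, fun i a => ?_⟩
    · have h1 := congrArg Subtype.val (e.injective hij)
      exact hu.injective h1
    · change (b0.reindex e) (e ⟨_, hin i⟩) a = _
      rw [Module.Basis.reindex_apply, Equiv.symm_apply_apply, Module.Basis.extend_apply_self]
  set R : Fin (E + 1) → Fin (E + 1) → ℂ := fun a j => b.repr (Pi.single a 1) j with hR
  have hRU : ∀ a c, ∑ j, R a j * b j c = if a = c then 1 else 0 := by
    intro a c
    have h1 := congrFun (b.sum_repr (Pi.single a (1 : ℂ))) c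
    rw [Finset.sum_apply] at h1
    simp only [Pi.smul_apply, smul_eq_mul] at h1
    rw [hR]
    simp only
    rw [h1, Pi.single_apply]
    simp only [eq_comm]
  set φ : MvPolynomial (Fin (E + 1)) ℂ →ₐ[ℂ] MvPolynomial (Fin (E + 1)) ℂ :=
    aeval fun a => ∑ j, C (R a j) * X j with hφ
  set ψ : MvPolynomial (Fin (E + 1)) ℂ →ₐ[ℂ] MvPolynomial (Fin (E + 1)) ℂ :=
    aeval fun j => ∑ c, C (b j c) * X c with hψ
  have hψφ : ∀ γ, ψ (φ γ) = γ := by
    have key : ψ.comp φ = AlgHom.id ℂ _ := by
      apply algHom_ext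
      intro a
      rw [AlgHom.comp_apply, hφ, aeval_X, map_sum]
      simp only [map_mul, hψ, aeval_X, aeval_C, MvPolynomial.algebraMap_eq, AlgHom.id_apply,
        Finset.mul_sum]
      rw [Finset.sum_comm]
      have : ∀ c ∈ (Finset.univ : Finset (Fin (E + 1))), ∑ j, C (R a j) * (C (b j c) *
          (X c : MvPolynomial (Fin (E + 1)) ℂ)) = if a = c then X c else 0 := by
        intro c _
        have h1 : ∀ j ∈ (Finset.univ : Finset (Fin (E + 1))), C (R a j) * (C (b j c) *
            (X c : MvPolynomial (Fin (E + 1)) ℂ)) = C (R a j * b j c) * X c := by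
          intro j _
          rw [C_mul]
          ring
        rw [Finset.sum_congr rfl h1, ← Finset.sum_mul, ← map_sum, hRU]
        split_ifs <;> simp
      rw [Finset.sum_congr rfl this]
      simp
    exact fun γ => AlgHom.congr_fun key γ
  have hφdeg : ∀ γ, (φ γ).totalDegree ≤ γ.totalDegree := by
    intro γ
    refine totalDegree_aeval_le _ (fun a => ?_) γ
    refine (totalDegree_finsetSum _ _).trans (Finset.sup_le fun j _ => ?_)
    refine (totalDegree_mul _ _).trans ?_
    rw [totalDegree_C, totalDegree_X]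
  set T : Finset (Fin (E + 1)) := Finset.univ.map τ with hT
  have hTcard : T.card = s := by rw [hT, Finset.card_map, Finset.card_univ, Fintype.card_fin]
  have hψP : ∀ j, ψ ((∏ i ∈ T, X i) ^ j) = prodLin u j := by
    intro j
    rw [map_pow, map_prod, hT, Finset.prod_map, prodLin, Finset.prod_pow]
    congr 1
    refine Finset.prod_congr rfl fun i _ => ?_
    rw [hψ, aeval_X]
    refine Finset.sum_congr rfl fun a _ => ?_
    rw [hbτ]
  let nod : Fin s → (Fin E → ℂ) → Fin (E + 1) → ℂ := fun i q a =>
    ∑ j, R a j * ((τ i).insertNth (0 : ℂ) q : Fin (E + 1) → ℂ) j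
  refine ⟨Finset.univ.biUnion fun i : Fin s =>
    (Fintype.piFinset fun _ : Fin E => SS (E + 1)).image (nod i), ?_, ?_⟩
  · refine Finset.card_biUnion_le.trans ?_
    refine (Finset.sum_le_sum fun i _ => Finset.card_image_le).trans ?_
    rw [Fintype.card_piFinset_const, card_SS, Finset.sum_const, Finset.card_univ, Fintype.card_fin,
      smul_eq_mul]
  · intro γ hdeg hpt
    by_contra hγ0
    refine killT (k := k) T (by rw [hTcard]; exact h2s) (φ γ) ?_ ?_ ?_
    · intro h0
      apply hγ0
      rw [← hψφ γ, h0, map_zero]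
    · intro j hj
      have h1 : prodLin u j ∣ γ := by
        rw [← hψP, ← hψφ γ]
        exact map_dvd ψ hj
      have h2 := hdeg j h1 hγ0
      have h3 := hφdeg γ
      rw [hTcard]
      omega
    · intro i hi q hq
      obtain ⟨i', -, rfl⟩ := Finset.mem_map.1 hi
      have h1 : γ ∈ pt (nod i' q) ^ (k + 1) := by
        apply hpt
        rw [Finset.mem_biUnion]
        exact ⟨i', Finset.mem_univ _, Finset.mem_image.2 ⟨q, Fintype.mem_piFinset.2 hq, rfl⟩⟩
      have h2 := Ideal.mem_map_of_mem φ h1
      rw [Ideal.map_pow] at h2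
      refine Ideal.pow_right_mono ?_ (k + 1) h2
      rw [pt, Ideal.map_span, Ideal.span_le]
      rintro _ ⟨_, ⟨a, rfl⟩, rfl⟩
      change φ (X a - C (nod i' q a)) ∈ pt _
      have h3 : φ (X a - C (nod i' q a)) = ∑ j, C (R a j) *
          (X j - C (((τ i').insertNth (0 : ℂ) q : Fin (E + 1) → ℂ) j)) := by
        rw [map_sub, hφ, aeval_X, aeval_C, MvPolynomial.algebraMap_eq]
        simp only [mul_sub, Finset.sum_sub_distrib]
        congr 1
        rw [← Finset.sum_congr rfl fun j _ => C_mul, ← map_sum]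
      rw [h3]
      refine Ideal.sum_mem _ fun j _ => Ideal.mul_mem_left _ _ ?_
      exact Ideal.subset_span ⟨j, rfl⟩

end

end K4H38CX
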