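import Mathlib
import Pool.Agent.K4H38.CX.Defs
import Pool.Agent.K4H38.CW.Cert

/-!
# Task H: collision of points into the origin
-/

set_option autoImplicit false
set_option linter.unusedSectionVars false

namespace K4H38CX

open MvPolynomial H350MG Module K4H38FP
open Pool.Agent.H932R5 (pt shift deh)

noncomputable section

namespace TH

variable {E : ℕ}

/-- the polynomials of `W` with no components of degree less than `l` -/
def Wl (W : Submodule ℂ (MvPolynomial (Fin (E + 1)) ℂ)) (l : ℕ) :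
    Submodule ℂ (MvPolynomial (Fin (E + 1)) ℂ) :=
  W ⊓ ⨅ i : Fin l, LinearMap.ker (homogeneousComponent i.1)

theorem mem_Wl {W : Submodule ℂ (MvPolynomial (Fin (E + 1)) ℂ)} {l : ℕ}
    {f : MvPolynomial (Fin (E + 1)) ℂ} :
    f ∈ Wl W l ↔ f ∈ W ∧ ∀ i < l, homogeneousComponent i f = 0 := by
  unfold Wl
  rw [Submodule.mem_inf, Submodule.mem_iInf]
  refine and_congr_right fun _ => ⟨fun h i hi => ?_, fun h i => ?_⟩
  · exact LinearMap.mem_ker.1 (h ⟨i, hi⟩)
  · exact LinearMap.mem_ker.2 (h i.1 i.2)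

theorem coeff_of_Wl {W : Submodule ℂ (MvPolynomial (Fin (E + 1)) ℂ)} {l : ℕ}
    {f : MvPolynomial (Fin (E + 1)) ℂ} (hf : f ∈ Wl W l) {m : Fin (E + 1) →₀ ℕ}
    (hm : m.degree < l) : coeff m f = 0 := by
  have h := congrArg (coeff m) ((mem_Wl.1 hf).2 _ hm)
  rwa [coeff_homogeneousComponent, if_pos rfl, coeff_zero] at h

/-- scaling of the coordinates -/
def scale (ε : ℂ) : MvPolynomial (Fin (E + 1)) ℂ →ₐ[ℂ] MvPolynomial (Fin (E + 1)) ℂ :=
  aeval (fun j => C ε * X j)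

theorem scale_monomial (ε : ℂ) (m : Fin (E + 1) →₀ ℕ) (a : ℂ) :
    scale ε (monomial m a) = monomial m (ε ^ m.degree * a) := by
  unfold scale
  rw [aeval_monomial, Finsupp.prod_fintype _ _ (fun i => pow_zero _)]
  simp only [mul_pow, Finset.prod_mul_distrib]
  rw [Finset.prod_pow_eq_pow_sum, algebraMap_eq, ← C_pow, Finsupp.degree_eq_sum,
    ← mul_assoc, ← C_mul, mul_comm a]
  have h : (∏ i, (X i : MvPolynomial (Fin (E + 1)) ℂ) ^ m i) = monomial m 1 := by
    rw [monomial_eq, C_1, one_mul, Finsupp.prod_fintype _ _ (fun i => pow_zero _)]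
  rw [h, C_mul_monomial, mul_one]

theorem coeff_scale (ε : ℂ) (f : MvPolynomial (Fin (E + 1)) ℂ) (m : Fin (E + 1) →₀ ℕ) :
    coeff m (scale ε f) = ε ^ m.degree * coeff m f := by
  classical
  induction f using MvPolynomial.induction_on' with
  | monomial n a =>
    rw [scale_monomial, coeff_monomial, coeff_monomial]
    split_ifs with h
    · rw [h]
    · rw [mul_zero]
  | add p q hp hq => rw [map_add, coeff_add, coeff_add, hp, hq, mul_add]

theorem scale_mem {ε : ℂ} {p : Fin (E + 1) → ℂ} {K : ℕ} {f : MvPolynomial (Fin (E + 1)) ℂ}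
    (hf : f ∈ pt (ε • p) ^ K) : scale ε f ∈ pt p ^ K := by
  have h1 := Ideal.mem_map_of_mem (scale ε) hf
  rw [Ideal.map_pow] at h1
  refine Ideal.pow_right_mono ?_ K h1
  unfold Pool.Agent.H932R5.pt
  rw [Ideal.map_span, Ideal.span_le]
  rintro _ ⟨_, ⟨k, rfl⟩, rfl⟩
  have h2 : scale ε (X k - C ((ε • p) k)) = C ε * (X k - C (p k)) := by
    unfold scale
    rw [map_sub, aeval_X, ← algebraMap_eq, AlgHom.commutes, algebraMap_eq, Pi.smul_apply,
      smul_eq_mul, C_mul]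
    ring
  show scale ε (X k - C ((ε • p) k)) ∈ _
  rw [h2]
  exact Ideal.mul_mem_left _ _ (Ideal.subset_span ⟨k, rfl⟩)

section main

variable {d : ℕ} {W : Submodule ℂ (MvPolynomial (Fin (E + 1)) ℂ)}
  (s : ∀ l : ℕ, Lead W l →ₗ[ℂ] Wl W l)

/-- the family of maps -/
def T (d : ℕ) (ε : ℂ) : (∀ l : Fin (d + 1), Lead W l.1) →ₗ[ℂ] MvPolynomial (Fin (E + 1)) ℂ :=
  ∑ l : Fin (d + 1), ∑ i ∈ Finset.range (d + 1), ε ^ (i - l.1) •
    (homogeneousComponent i ∘ₗ (Wl W l.1).subtype ∘ₗ s l.1 ∘ₗ LinearMap.proj l)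

theorem T_apply (ε : ℂ) (b : ∀ l : Fin (d + 1), Lead W l.1) :
    T s d ε b = ∑ l : Fin (d + 1), ∑ i ∈ Finset.range (d + 1), ε ^ (i - l.1) •
      homogeneousComponent i ((s l.1 (b l) : Wl W l.1) : MvPolynomial (Fin (E + 1)) ℂ) := by
  unfold T
  rw [LinearMap.sum_apply]
  refine Finset.sum_congr rfl fun l _ => ?_
  rw [LinearMap.sum_apply]
  rfl

theorem coeff_T (hW : ∀ f ∈ W, f.totalDegree ≤ d) (ε : ℂ) (b : ∀ l : Fin (d + 1), Lead W l.1)
    (m : Fin (E + 1) →₀ ℕ) :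
    coeff m (T s d ε b) = ∑ l : Fin (d + 1), ε ^ (m.degree - l.1) *
      coeff m ((s l.1 (b l) : Wl W l.1) : MvPolynomial (Fin (E + 1)) ℂ) := by
  rw [T_apply, coeff_sum]
  refine Finset.sum_congr rfl fun l _ => ?_
  rw [coeff_sum]
  by_cases hm : m.degree < d + 1
  · rw [Finset.sum_eq_single m.degree]
    · rw [coeff_smul, coeff_homogeneousComponent, if_pos rfl, smul_eq_mul]
    · intro i _ hi
      rw [coeff_smul, coeff_homogeneousComponent, if_neg (fun h => hi h.symm), smul_zero]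
    · intro h
      exact absurd (Finset.mem_range.2 hm) h
  · have h0 : coeff m ((s l.1 (b l) : Wl W l.1) : MvPolynomial (Fin (E + 1)) ℂ) = 0 := by
      refine coeff_eq_zero_of_totalDegree_lt ?_
      have h1 := hW _ (mem_Wl.1 (s l.1 (b l)).2).1
      have h2 : m.degree = ∑ i ∈ m.support, m i := rfl
      omega
    rw [h0, mul_zero]
    refine Finset.sum_eq_zero fun i _ => ?_
    rw [coeff_smul, coeff_homogeneousComponent]
    split_ifs
    · rw [h0, smul_zero]
    · rw [smul_zero]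

theorem decomp (hW : ∀ f ∈ W, f.totalDegree ≤ d)
    (hs : ∀ (l : ℕ) (x : Lead W l), homogeneousComponent l
      ((s l x : Wl W l) : MvPolynomial (Fin (E + 1)) ℂ) = x) (k : ℕ) :
    ∀ l : ℕ, l + k = d + 1 → ∀ f ∈ Wl W l, ∃ c : ∀ l : Fin (d + 1), Lead W l.1,
      f = ∑ j : Fin (d + 1), ((s j.1 (c j) : Wl W j.1) : MvPolynomial (Fin (E + 1)) ℂ) := by
  classical
  induction k with
  | zero =>
    intro l hl f hf
    refine ⟨0, ?_⟩
    have h0 : f = 0 := by
      ext m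
      rw [coeff_zero]
      by_cases hm : m.degree < l
      · exact coeff_of_Wl hf hm
      · refine coeff_eq_zero_of_totalDegree_lt ?_
        have h1 := hW _ (mem_Wl.1 hf).1
        have h2 : m.degree = ∑ i ∈ m.support, m i := rfl
        omega
    rw [h0]
    simp
  | succ k ih =>
    intro l hl f hf
    let γ : Lead W l := ⟨homogeneousComponent l f, Submodule.mem_map_of_mem hf⟩
    have hf' : f - ((s l γ : Wl W l) : MvPolynomial (Fin (E + 1)) ℂ) ∈ Wl W (l + 1) := by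
      rw [mem_Wl]
      refine ⟨W.sub_mem (mem_Wl.1 hf).1 (mem_Wl.1 (s l γ).2).1, fun i hi => ?_⟩
      rw [map_sub]
      rcases Nat.lt_succ_iff_lt_or_eq.1 hi with h | h
      · rw [(mem_Wl.1 hf).2 i h, (mem_Wl.1 (s l γ).2).2 i h, sub_zero]
      · subst h
        rw [hs, sub_self]
    obtain ⟨c, hc⟩ := ih (l + 1) (by omega) _ hf'
    let j0 : Fin (d + 1) := ⟨l, by omega⟩
    refine ⟨c + Pi.single j0 γ, ?_⟩
    have h1 : f = ∑ j : Fin (d + 1), ((s j.1 (c j) : Wl W j.1) : MvPolynomial (Fin (E + 1)) ℂ) +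
        ((s l γ : Wl W l) : MvPolynomial (Fin (E + 1)) ℂ) := by
      rw [← hc]; ring
    have h2 : ∑ j : Fin (d + 1), ((s j.1 ((Pi.single j0 γ : ∀ l : Fin (d + 1), Lead W l.1) j) :
        Wl W j.1) : MvPolynomial (Fin (E + 1)) ℂ) =
        ((s l γ : Wl W l) : MvPolynomial (Fin (E + 1)) ℂ) := by
      rw [Finset.sum_eq_single j0]
      · rw [Pi.single_eq_same]
      · intro j _ hj
        rw [Pi.single_eq_of_ne hj, map_zero]
        rfl
      · intro h; exact absurd (Finset.mem_univ _) h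
    rw [h1, ← h2, ← Finset.sum_add_distrib]
    refine Finset.sum_congr rfl fun j _ => ?_
    rw [Pi.add_apply, map_add]
    rfl

end main

end TH

open TH in
/-- TASK H -/
theorem collideH {E d K : ℕ} (W : Submodule ℂ (MvPolynomial (Fin (E + 1)) ℂ))
    (hW : ∀ f ∈ W, f.totalDegree ≤ d) (Pts : Finset (Fin (E + 1) → ℂ))
    (hkill : ∀ γ : MvPolynomial (Fin (E + 1)) ℂ, (∀ l, homogeneousComponent l γ ∈ Lead W l) →
      (∀ p ∈ Pts, γ ∈ pt p ^ K) → γ = 0) :
    ∃ ε : ℂ, ε ≠ 0 ∧ ∀ f ∈ W, (∀ p ∈ Pts, f ∈ pt (ε • p) ^ K) → f = 0 := by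
  classical
  have hWle : W ≤ restrictTotalDegree (Fin (E + 1)) ℂ d := fun f hf =>
    (mem_restrictTotalDegree _ _ _).2 (hW f hf)
  have hWfin : FiniteDimensional ℂ W := Submodule.finiteDimensional_of_le hWle
  have hWlfin : ∀ l, FiniteDimensional ℂ (Wl W l) := fun l =>
    Submodule.finiteDimensional_of_le (S₂ := W) inf_le_left
  have hLfin : ∀ l, FiniteDimensional ℂ (Lead W l) := fun l => by
    show FiniteDimensional ℂ (Submodule.map (homogeneousComponent l) (Wl W l))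
    infer_instance
  have hsec : ∀ l : ℕ, ∃ σ : Lead W l →ₗ[ℂ] Wl W l, ∀ x : Lead W l, homogeneousComponent l
      ((σ x : Wl W l) : MvPolynomial (Fin (E + 1)) ℂ) = x := by
    intro l
    obtain ⟨g, hg⟩ := LinearMap.exists_rightInverse_of_surjective
      ((homogeneousComponent l).submoduleMap (Wl W l))
      (LinearMap.range_eq_top.2 (LinearMap.submoduleMap_surjective _ _))
    refine ⟨g, fun x => ?_⟩
    exact congrArg Subtype.val (LinearMap.congr_fun hg x)
  choose s hs using hsec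
  let I : Submodule ℂ (MvPolynomial (Fin (E + 1)) ℂ) :=
    ((⨅ p ∈ Pts, pt p ^ K : Ideal (MvPolynomial (Fin (E + 1)) ℂ))).restrictScalars ℂ
  have hI : ∀ f, f ∈ I ↔ ∀ p ∈ Pts, f ∈ pt p ^ K := by
    intro f
    show f ∈ (⨅ p ∈ Pts, pt p ^ K : Ideal (MvPolynomial (Fin (E + 1)) ℂ)) ↔ _
    simp only [Ideal.mem_iInf]
  let L : (Unit → ℂ) → (∀ l : Fin (d + 1), Lead W l.1) →ₗ[ℂ] (MvPolynomial (Fin (E + 1)) ℂ ⧸ I) :=
    fun P => I.mkQ ∘ₗ T s d (P ())
  have hL : ∀ (x : ∀ l : Fin (d + 1), Lead W l.1)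
      (ψ : (MvPolynomial (Fin (E + 1)) ℂ ⧸ I) →ₗ[ℂ] ℂ), IsPoly (fun P => ψ (L P x)) := by
    intro x ψ
    refine ⟨∑ l : Fin (d + 1), ∑ i ∈ Finset.range (d + 1), X () ^ (i - l.1) *
      C (ψ (I.mkQ (homogeneousComponent i
        ((s l.1 (x l) : Wl W l.1) : MvPolynomial (Fin (E + 1)) ℂ)))), fun P => ?_⟩
    show _ = ψ (I.mkQ (T s d (P ()) x))
    rw [T_apply, map_sum, map_sum, map_sum]
    refine Finset.sum_congr rfl fun l _ => ?_
    rw [map_sum, map_sum, map_sum]
    refine Finset.sum_congr rfl fun i _ => ?_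
    rw [map_smul, map_smul, map_mul, map_pow, eval_X, eval_C, smul_eq_mul]
  obtain ⟨Φ, hΦ0, hΦ⟩ := K4H38CW.generic_ker0 L hL (fun _ => 0)
  -- the kernel at zero
  have hker0 : LinearMap.ker (L fun _ => 0) = ⊥ := by
    rw [LinearMap.ker_eq_bot']
    intro b hb
    have hmem : T s d 0 b ∈ I := by
      have : I.mkQ (T s d 0 b) = 0 := hb
      rwa [Submodule.mkQ_apply, Submodule.Quotient.mk_eq_zero] at this
    have hcomp : ∀ l : ℕ, homogeneousComponent l (T s d 0 b) =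
        if h : l < d + 1 then ((b ⟨l, h⟩ : Lead W l) : MvPolynomial (Fin (E + 1)) ℂ) else 0 := by
      intro l
      ext m
      rw [coeff_homogeneousComponent]
      split_ifs with h1 h2 h2
      · rw [coeff_T s hW, Finset.sum_eq_single ⟨l, h2⟩]
        · rw [← hs l (b ⟨l, h2⟩), coeff_homogeneousComponent, if_pos h1, h1, Nat.sub_self, pow_zero,
            one_mul]
        · intro j _ hj
          have hj' : j.1 ≠ l := fun h => hj (Fin.ext h)
          rcases lt_or_gt_of_ne hj' with h | h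
          · rw [h1, zero_pow (by omega), zero_mul]
          · rw [coeff_of_Wl (s j.1 (b j)).2 (by omega), mul_zero]
        · intro h; exact absurd (Finset.mem_univ _) h
      · rw [coeff_T s hW, coeff_zero]
        refine Finset.sum_eq_zero fun j _ => ?_
        rw [zero_pow (by omega), zero_mul]
      · have h3 := hs l (b ⟨l, h2⟩)
        rw [← h3, coeff_homogeneousComponent, if_neg h1]
      · rw [coeff_zero]
    have h0 := hkill (T s d 0 b) (fun l => by
      rw [hcomp]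
      split_ifs with h
      · exact (b ⟨l, h⟩).2
      · exact Submodule.zero_mem _) ((hI _).1 hmem)
    funext l
    have h1 := hcomp l.1
    rw [h0, map_zero, dif_pos l.2] at h1
    exact Subtype.ext h1.symm
  -- a good value of epsilon
  have hε : ∃ ε : ℂ, ε ≠ 0 ∧ eval (fun _ : Unit => ε) Φ ≠ 0 := by
    have hcont : Continuous fun ε : ℂ => eval (fun _ : Unit => ε) Φ :=
      (MvPolynomial.continuous_eval Φ).comp (continuous_pi fun _ => continuous_id)
    have h1 : ∀ᶠ ε : ℂ in nhds 0, eval (fun _ : Unit => ε) Φ ≠ 0 :=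
      hcont.continuousAt.eventually_ne hΦ0
    have h2 : ∀ᶠ ε : ℂ in nhdsWithin 0 {0}ᶜ, ε ≠ 0 ∧ eval (fun _ : Unit => ε) Φ ≠ 0 :=
      (eventually_mem_nhdsWithin (a := (0 : ℂ)) (s := {0}ᶜ)).and (h1.filter_mono nhdsWithin_le_nhds)
    exact h2.exists
  obtain ⟨ε, hε0, hεΦ⟩ := hε
  refine ⟨ε, hε0, fun f hf hpt => ?_⟩
  have hker : LinearMap.ker (L fun _ => ε) = ⊥ := by
    have h1 := hΦ (fun _ => ε) hεΦ
    rw [hker0, finrank_bot] at h1
    exact Submodule.finrank_eq_zero.1 (Nat.le_zero.1 h1)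
  have hf0 : f ∈ Wl W 0 := mem_Wl.2 ⟨hf, fun i hi => absurd hi (Nat.not_lt_zero i)⟩
  obtain ⟨c, hc⟩ := decomp s hW hs (d + 1) 0 (by omega) f hf0
  have hT : T s d ε (fun l => ε ^ l.1 • c l) = scale ε f := by
    ext m
    rw [coeff_T s hW, coeff_scale]
    conv_rhs => rw [hc, coeff_sum, Finset.mul_sum]
    refine Finset.sum_congr rfl fun l _ => ?_
    rw [map_smul, Submodule.coe_smul, coeff_smul, smul_eq_mul]
    by_cases hm : m.degree < l.1
    · rw [coeff_of_Wl (s l.1 (c l)).2 hm, mul_zero, mul_zero, mul_zero]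
    · rw [← mul_assoc, ← pow_add, Nat.sub_add_cancel (not_lt.1 hm)]
  have hmem : (fun l : Fin (d + 1) => ε ^ l.1 • c l) ∈ LinearMap.ker (L fun _ => ε) := by
    rw [LinearMap.mem_ker]
    show I.mkQ (T s d ε (fun l => ε ^ l.1 • c l)) = 0
    rw [hT, Submodule.mkQ_apply, Submodule.Quotient.mk_eq_zero]
    exact (hI _).2 fun p hp => scale_mem (hpt p hp)
  rw [hker, Submodule.mem_bot] at hmem
  have hc0 : c = 0 := by
    funext l
    have h1 := congrFun hmem l
    exact (smul_eq_zero.1 h1).resolve_left (pow_ne_zero _ hε0)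
  rw [hc, hc0]
  simp

end

end K4H38CX
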