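import Mathlib
import Pool.Agent.K4H38.CX.Defs

/-! # Task T: Taylor expansion of the dehomogenisation -/

set_option autoImplicit false
set_option linter.unusedSectionVars false

namespace K4H38CX

open MvPolynomial H350MG Module K4H38FP
open Pool.Agent.H932R5 (pt shift deh)

noncomputable section

lemma taskT_lin_cons {E : ℕ} (w : Fin (E + 1 + 1) → ℂ) :
    (lin w : MvPolynomial (Fin (E + 1 + 1)) ℂ) =
      w 0 • X 0 + ∑ j : Fin (E + 1), w j.succ • X j.succ := by
  unfold lin
  rw [Fin.sum_univ_succ]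

lemma taskT_deh {E : ℕ} (Q : Fin (E + 1) → ℂ) (w : Fin (E + 1 + 1) → ℂ) :
    shift Q (deh ℂ E (lin w)) = lin (fun j : Fin (E + 1) => w j.succ) +
      C (dt w (Fin.cons 1 Q : Fin (E + 1 + 1) → ℂ)) := by
  rw [taskT_lin_cons]
  have h0 : deh ℂ E (X 0) = 1 := Pool.Agent.H932R5.deh_X0
  have h1 : ∀ j : Fin (E + 1), deh ℂ E (X j.succ) = X j := fun j => Pool.Agent.H932R5.deh_X j
  have h2 : ∀ j : Fin (E + 1), shift Q (X j) = X j + C (Q j) := fun j =>
    Pool.Agent.H932R5.shift_X Q j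
  have h3 : dt w (Fin.cons 1 Q : Fin (E + 1 + 1) → ℂ) = w 0 + ∑ j : Fin (E + 1), w j.succ * Q j := by
    unfold dt
    rw [Fin.sum_univ_succ]
    simp only [Fin.cons_zero, Fin.cons_succ, mul_one]
  rw [h3]
  simp only [map_add, map_smul, map_sum, h0, h1, h2, map_one]
  unfold lin
  simp only [smul_add, Finset.sum_add_distrib, smul_eq_C_mul, C_mul, mul_one]
  ring

lemma taskT_psi {E : ℕ} (w : Fin (E + 1 + 1) → ℂ) :
    psi E (lin w) = lin (fun j : Fin (E + 1) => w j.succ) := by
  rw [taskT_lin_cons]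
  unfold psi lin
  simp [smul_eq_C_mul]

lemma taskT_D {σ : Type} [Fintype σ] [DecidableEq σ] (v w : σ → ℂ) (l k : ℕ) :
    (D v ^ k) (lin w ^ (l + k)) =
      ((((l + k).factorial : ℂ) / (l.factorial : ℂ)) * dt w v ^ k) • lin w ^ l := by
  induction k with
  | zero =>
    rw [pow_zero, Module.End.one_apply, add_zero, pow_zero, mul_one,
      div_self (by exact_mod_cast l.factorial_ne_zero), one_smul]
  | succ k ih =>
    rw [pow_succ, Module.End.mul_apply, ← add_assoc, D_linpow, map_smul, ih, smul_smul]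
    congr 1
    rw [Nat.factorial_succ]
    push_cast
    ring

/-- TASK T -/
theorem taylor {E d l : ℕ} (hl : l ≤ d) (Q : Fin (E + 1) → ℂ)
    {F : MvPolynomial (Fin (E + 1 + 1)) ℂ} (hF : F ∈ Rj ℂ (Fin (E + 1 + 1)) d) :
    homogeneousComponent l (shift Q (deh ℂ E F)) = (((d - l).factorial : ℂ))⁻¹ •
      psi E ((D (Fin.cons 1 Q : Fin (E + 1 + 1) → ℂ) ^ (d - l)) F) := by
  obtain ⟨k, rfl⟩ : ∃ k, d = l + k := ⟨d - l, by omega⟩
  have hk : l + k - l = k := by omega
  rw [hk]
  set v : Fin (E + 1 + 1) → ℂ := Fin.cons 1 Q with hv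
  let L1 : MvPolynomial (Fin (E + 1 + 1)) ℂ →ₗ[ℂ] MvPolynomial (Fin (E + 1)) ℂ :=
    (homogeneousComponent l) ∘ₗ (shift Q).toLinearMap ∘ₗ (deh ℂ E).toLinearMap
  let L2 : MvPolynomial (Fin (E + 1 + 1)) ℂ →ₗ[ℂ] MvPolynomial (Fin (E + 1)) ℂ :=
    ((k.factorial : ℂ))⁻¹ • ((psi E).toLinearMap ∘ₗ (D v ^ k))
  have hmem : Rj ℂ (Fin (E + 1 + 1)) (l + k) ≤ LinearMap.ker (L1 - L2) := by
    refine mem_span_of_lin fun μ hμ w => hμ ?_
    rw [LinearMap.mem_ker, LinearMap.sub_apply, sub_eq_zero]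
    change homogeneousComponent l (shift Q (deh ℂ E (lin w ^ (l + k)))) =
      ((k.factorial : ℂ))⁻¹ • psi E ((D v ^ k) (lin w ^ (l + k)))
    rw [map_pow (deh ℂ E), map_pow (shift Q), taskT_deh, taskT_D, map_smul, map_pow (psi E), taskT_psi,
      add_pow, map_sum]
    rw [Finset.sum_eq_single l]
    · have h1 : (lin (fun j : Fin (E + 1) => w j.succ) ^ l *
          C (dt w (Fin.cons 1 Q : Fin (E + 1 + 1) → ℂ)) ^ (l + k - l) *
          (((l + k).choose l : ℕ) : MvPolynomial (Fin (E + 1)) ℂ)) =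
          ((((l + k).choose l : ℕ) : ℂ) * dt w v ^ k) •
            lin (fun j : Fin (E + 1) => w j.succ) ^ l := by
        rw [hk, smul_eq_C_mul, C_mul, C_pow, ← hv]
        have : (((l + k).choose l : ℕ) : MvPolynomial (Fin (E + 1)) ℂ) =
            C ((((l + k).choose l : ℕ)) : ℂ) := by
          simp
        rw [this]
        ring
      rw [h1, map_smul, homogeneousComponent_of_mem (linpow_hom _ l), if_pos rfl, smul_smul]
      congr 1
      rw [Nat.cast_choose ℂ (Nat.le_add_right l k), Nat.add_sub_cancel_left]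
      have h2 : (l.factorial : ℂ) ≠ 0 := by exact_mod_cast l.factorial_ne_zero
      have h3 : (k.factorial : ℂ) ≠ 0 := by exact_mod_cast k.factorial_ne_zero
      field_simp
    · intro m _ hml
      have h1 : (lin (fun j : Fin (E + 1) => w j.succ) ^ m *
          C (dt w (Fin.cons 1 Q : Fin (E + 1 + 1) → ℂ)) ^ (l + k - m) *
          (((l + k).choose m : ℕ) : MvPolynomial (Fin (E + 1)) ℂ)) =
          ((((l + k).choose m : ℕ) : ℂ) * dt w v ^ (l + k - m)) •
            lin (fun j : Fin (E + 1) => w j.succ) ^ m := by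
        rw [smul_eq_C_mul, C_mul, C_pow, ← hv]
        have : (((l + k).choose m : ℕ) : MvPolynomial (Fin (E + 1)) ℂ) =
            C ((((l + k).choose m : ℕ)) : ℂ) := by
          simp
        rw [this]
        ring
      rw [h1, map_smul, homogeneousComponent_of_mem (linpow_hom _ m), if_neg (Ne.symm hml), smul_zero]
    · intro h
      exact absurd (Finset.mem_range.2 (by omega)) h
  have h := hmem hF
  rw [LinearMap.mem_ker, LinearMap.sub_apply, sub_eq_zero] at h
  exact h

theorem prodLin_hom {n s : ℕ} (u : Fin s × Fin n → ℂ) (j : ℕ) :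
    (prodLin u j).IsHomogeneous (∑ _i : Fin s, 1 * j) := by
  unfold prodLin
  refine IsHomogeneous.prod _ _ _ fun i _ => ?_
  refine IsHomogeneous.pow ?_ j
  refine IsHomogeneous.sum _ _ _ fun a _ => ?_
  have := (isHomogeneous_C (Fin n) (u (i, a))).mul (isHomogeneous_X ℂ a)
  rwa [zero_add] at this

theorem prodLin_dvd {n s j l : ℕ} {u : Fin s × Fin n → ℂ} {γ : MvPolynomial (Fin n) ℂ}
    (h : prodLin u j ∣ γ) : prodLin u j ∣ homogeneousComponent l γ := by
  obtain ⟨q, rfl⟩ := h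
  conv_rhs => rw [← sum_homogeneousComponent q, Finset.mul_sum, map_sum]
  refine Finset.dvd_sum fun i _ => ?_
  have h1 : (prodLin u j * homogeneousComponent i q).IsHomogeneous
      ((∑ _i : Fin s, 1 * j) + i) :=
    (prodLin_hom u j).mul (homogeneousComponent_isHomogeneous i q)
  rw [homogeneousComponent_of_mem h1]
  split_ifs
  · exact dvd_mul_right _ _
  · exact dvd_zero _

end

end K4H38CX
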