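import Mathlib
import Pool.Agent.K4H38.CX.Defs
import Pool.Agent.K4H38.CX.TaskT

/-! # Task I1: the leading forms of a system at a point -/

set_option autoImplicit false
set_option linter.unusedSectionVars false

namespace K4H38CX

open MvPolynomial H350MG Module K4H38FP
open Pool.Agent.H932R5 (pt shift deh mem_pt_pow_iff)

noncomputable section

/-- TASK I1 -/
theorem lead_le {E d l : ℕ} (Q : Fin (E + 1) → ℂ)
    {N : Submodule ℂ (MvPolynomial (Fin (E + 1 + 1)) ℂ)} (hN : N ≤ Rj ℂ (Fin (E + 1 + 1)) d) :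
    Lead (N.map ((shift Q).toLinearMap ∘ₗ (deh ℂ E).toLinearMap)) l ≤
      if l ≤ d then
        ((N ⊓ LinearMap.ker (D (Fin.cons 1 Q : Fin (E + 1 + 1) → ℂ) ^ (d + 1 - l))).map
          (D (Fin.cons 1 Q : Fin (E + 1 + 1) → ℂ) ^ (d - l))).map (psi E).toLinearMap
      else ⊥ := by
  rintro _ ⟨_, ⟨⟨F, hF, rfl⟩, hf2⟩, rfl⟩
  have hF' : F ∈ Rj ℂ (Fin (E + 1 + 1)) d := hN hF
  have hpt : deh ℂ E F ∈ pt Q ^ l := by
    rw [mem_pt_pow_iff]
    intro s hs
    have h1 : homogeneousComponent (Finsupp.degree s) (shift Q (deh ℂ E F)) = 0 :=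
      LinearMap.mem_ker.1 ((Submodule.mem_iInf _).1 hf2 ⟨Finsupp.degree s, hs⟩)
    have h2 := congrArg (coeff s) h1
    rwa [coeff_homogeneousComponent, if_pos rfl, coeff_zero] at h2
  have hD : (D (Fin.cons 1 Q : Fin (E + 1 + 1) → ℂ) ^ (d + 1 - l)) F = 0 :=
    (K4H77CW.D_iff Q l hF').2 hpt
  split_ifs with hl
  · show homogeneousComponent l (shift Q (deh ℂ E F)) ∈ _
    rw [taylor hl Q hF']
    exact Submodule.smul_mem _ _ ⟨_, ⟨F, ⟨hF, LinearMap.mem_ker.2 hD⟩, rfl⟩, rfl⟩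
  · have h0 : d + 1 - l = 0 := by omega
    rw [h0, pow_zero] at hD
    have hF0 : F = 0 := hD
    rw [hF0, map_zero, map_zero]
    exact Submodule.zero_mem _

end

end K4H38CX
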