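import Mathlib

/-! # Task I2: generic vectors at which a polynomial does not vanish are linearly independent -/

set_option autoImplicit false
set_option linter.unusedSectionVars false

namespace K4H38CX

open MvPolynomial

noncomputable section

/-- TASK I2 -/
theorem exists_forms {s n : ℕ} (hs : s ≤ n) (Φ : MvPolynomial (Fin s × Fin n) ℂ) (hΦ : Φ ≠ 0) :
    ∃ u : Fin s × Fin n → ℂ, eval u Φ ≠ 0 ∧ LinearIndependent ℂ fun i a => u (i, a) := by
  let e : Fin s × Fin n → Fin n × Fin n := fun p => (Fin.castLE hs p.1, p.2)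
  have he : Function.Injective e := by
    rintro ⟨i, a⟩ ⟨j, b⟩ h
    simp only [e, Prod.mk.injEq] at h
    exact Prod.ext (Fin.castLE_injective hs h.1) h.2
  have h1 : rename e Φ ≠ 0 := fun h => hΦ (rename_injective e he (by rw [h, map_zero]))
  have h2 : (Matrix.mvPolynomialX (Fin n) (Fin n) ℂ).det ≠ 0 :=
    Matrix.det_mvPolynomialX_ne_zero (Fin n) ℂ
  have h3 : ∃ v : Fin n × Fin n → ℂ,
      eval v (rename e Φ * (Matrix.mvPolynomialX (Fin n) (Fin n) ℂ).det) ≠ 0 := by
    by_contra hcon
    push Not at hcon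
    exact mul_ne_zero h1 h2 (MvPolynomial.funext fun v => by rw [hcon v, map_zero])
  obtain ⟨v, hv⟩ := h3
  rw [map_mul] at hv
  refine ⟨v ∘ e, ?_, ?_⟩
  · have := left_ne_zero_of_mul hv
    rwa [eval_rename] at this
  · have h4 := right_ne_zero_of_mul hv
    have h5 : eval v (Matrix.mvPolynomialX (Fin n) (Fin n) ℂ).det =
        (Matrix.of fun i j => v (i, j)).det := by
      rw [RingHom.map_det]
      congr 1
      ext i j
      simp [Matrix.mvPolynomialX]
    rw [h5] at h4
    have h6 := Matrix.linearIndependent_rows_of_det_ne_zero h4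
    exact h6.comp (Fin.castLE hs) (Fin.castLE_injective hs)

end

end K4H38CX
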