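import Mathlib
import Pool.Agent.K4H38.CX.TaskE
import Pool.Agent.K4H38.CX.TaskF
import Pool.Agent.K4H38.CX.TaskG
import Pool.Agent.K4H38.CX.TaskH
import Pool.Agent.K4H38.CX.TaskI1
import Pool.Agent.K4H38.CX.TaskI2
import Pool.Agent.K4H38.CX.TaskT
import Pool.Agent.K4H38.CW.CoreB
import Pool.Agent.K4H38.FP.Fin

/-!
After `n - 1` and `⌈n / 2⌉ n ^ (n - 1)` more points the system is empty.
-/

set_option autoImplicit false
set_option linter.unusedSectionVars false

namespace K4H38CX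

open MvPolynomial H350MG Module K4H38FP K4H38CW
open Pool.Agent.H932R5 (pt shift deh)

noncomputable section

lemma shift_add {E : ℕ} (P Q : Fin (E + 1) → ℂ) (f : MvPolynomial (Fin (E + 1)) ℂ) :
    shift P (shift Q f) = shift (Q + P) f := by
  have h : (shift P).comp (shift Q) = shift (K := ℂ) (Q + P) := by
    refine MvPolynomial.algHom_ext fun i => ?_
    rw [AlgHom.comp_apply, Pool.Agent.H932R5.shift_X, map_add, Pool.Agent.H932R5.shift_X,
      Pool.Agent.H932R5.shift_C, Pool.Agent.H932R5.shift_X, Pi.add_apply, C_add]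
    ring
  exact AlgHom.congr_fun h f

lemma shift_mem {E m : ℕ} {P Q : Fin (E + 1) → ℂ} {f : MvPolynomial (Fin (E + 1)) ℂ} :
    shift Q f ∈ Pool.Agent.H932R5.pt P ^ m ↔ f ∈ Pool.Agent.H932R5.pt (Q + P) ^ m := by
  rw [Pool.Agent.H932R5.mem_pt_pow_iff, Pool.Agent.H932R5.mem_pt_pow_iff]
  simp only [shift_add]

lemma shift_inj {E : ℕ} {Q : Fin (E + 1) → ℂ} {f : MvPolynomial (Fin (E + 1)) ℂ}
    (h : shift Q f = 0) : f = 0 := by
  have := Pool.Agent.H932R5.shift_shift Q f
  rw [h, map_zero] at this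
  exact this.symm

lemma totalDegree_shift {E : ℕ} (Q : Fin (E + 1) → ℂ) (f : MvPolynomial (Fin (E + 1)) ℂ) :
    (shift Q f).totalDegree ≤ f.totalDegree := by
  classical
  unfold Pool.Agent.H932R5.shift
  rw [aeval_def, eval₂_eq']
  refine (totalDegree_finset_sum _ _).trans ?_
  refine Finset.sup_le fun α hα => ?_
  refine (totalDegree_mul _ _).trans ?_
  rw [algebraMap_eq, totalDegree_C, zero_add]
  refine (totalDegree_finset_prod _ _).trans ?_
  refine le_trans ?_ (le_totalDegree hα)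
  rw [Finsupp.sum_fintype _ _ (fun _ => rfl)]
  refine Finset.sum_le_sum fun i _ => ?_
  refine (totalDegree_pow _ _).trans ?_
  have : (X i + C (Q i) : MvPolynomial (Fin (E + 1)) ℂ).totalDegree ≤ 1 := by
    refine (totalDegree_add _ _).trans ?_
    rw [totalDegree_X, totalDegree_C]
    exact le_rfl
  calc α i * (X i + C (Q i) : MvPolynomial (Fin (E + 1)) ℂ).totalDegree ≤ α i * 1 :=
        Nat.mul_le_mul_left _ this
    _ = α i := Nat.mul_one _

lemma totalDegree_deh {E d : ℕ} {F : MvPolynomial (Fin (E + 1 + 1)) ℂ} (hF : F.IsHomogeneous d) :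
    (deh ℂ E F).totalDegree ≤ d := by
  have h1 := Pool.Agent.H932R5.deh_mem hF
  rw [Pool.Agent.H932R5.mem_mspan] at h1
  refine Finset.sup_le fun α hα => ?_
  have h2 : Finsupp.degree α ≤ d := h1 α (mem_support_iff.1 hα)
  have h3 : (α.sum fun _ e => e) = Finsupp.degree α := rfl
  rw [h3]
  exact h2

/-- larger multiplicities give smaller dimensions -/
lemma hv_anti_mult {K : Type} [Field K] [CharZero K] {σ : Type} [Fintype σ] [DecidableEq σ]
    {d m m' : ℕ} (h : m ≤ m') (s : Multiset ℕ) :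
    hv K σ d (m' ::ₘ s) ≤ hv K σ d (m ::ₘ s) := by
  obtain ⟨c, hc, hc2⟩ := hv_spec (K := K) (σ := σ) d (m ::ₘ s)
  have hmem : m ∈ c.map Prod.snd := by rw [hc]; exact Multiset.mem_cons_self _ _
  obtain ⟨x, hx, hxa⟩ := Multiset.mem_map.1 hmem
  obtain ⟨c', rfl⟩ := Multiset.exists_cons_of_mem hx
  rw [Multiset.map_cons, hxa, Multiset.cons_inj_right] at hc
  rw [← hc2]
  refine (hv_le ((x.1, m') ::ₘ c') (by rw [Multiset.map_cons, hc])).trans
    (Submodule.finrank_mono ?_)
  intro F hF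
  refine ⟨hF.1, fun y hy => ?_⟩
  rcases Multiset.mem_cons.1 hy with hy | hy
  · rw [hy, hxa]
    have h1 := hF.2 (x.1, m') (Multiset.mem_cons_self _ _)
    exact Dpow_mono (Nat.sub_le_sub_left h _) h1
  · exact hF.2 y (Multiset.mem_cons_of_mem hy)

lemma hv_rep_le {K : Type} [Field K] [CharZero K] {σ : Type} [Fintype σ] [DecidableEq σ]
    {d m : ℕ} (C : Multiset ℕ) : ∀ s : Multiset ℕ, (∀ a ∈ C, m ≤ a) →
    hv K σ d (C + s) ≤ hv K σ d (Multiset.replicate C.card m + s) := by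
  induction C using Multiset.induction_on with
  | empty => intro s _; simp
  | cons a C ih =>
    intro s h
    rw [Multiset.card_cons, Multiset.replicate_succ, Multiset.cons_add, Multiset.cons_add]
    refine (hv_anti_mult (h a (Multiset.mem_cons_self _ _)) _).trans ?_
    have h1 := ih (m ::ₘ s) fun b hb => h b (Multiset.mem_cons_of_mem hb)
    rw [Multiset.add_cons, Multiset.add_cons] at h1
    exact h1

lemma choose_lt {q a b : ℕ} (hq : 1 ≤ q) (h : a < b) : (a + q).choose q < (b + q).choose q := by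
  have h1 : (a + 1 + q).choose q ≤ (b + q).choose q := Nat.choose_le_choose q (by omega)
  obtain ⟨p, rfl⟩ : ∃ p, q = p + 1 := ⟨q - 1, by omega⟩
  have h2 : (a + 1 + (p + 1)).choose (p + 1) =
      (a + (p + 1)).choose p + (a + (p + 1)).choose (p + 1) := by
    rw [show a + 1 + (p + 1) = (a + (p + 1)) + 1 by omega, Nat.choose_succ_succ']
  have h3 : 0 < (a + (p + 1)).choose p := Nat.choose_pos (by omega)
  omega

lemma prodLin_dvd_of_le {n s j j' : ℕ} (u : Fin s × Fin n → ℂ) (h : j ≤ j') :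
    prodLin u j ∣ prodLin u j' :=
  Finset.prod_dvd_prod_of_dvd _ _ fun _ _ => pow_dvd_pow _ h

lemma hv_mono' {K : Type} [Field K] [CharZero K] {σ : Type} [Fintype σ] [DecidableEq σ] {d : ℕ}
    {s t : Multiset ℕ} (h : s ≤ t) : hv K σ d t ≤ hv K σ d s := by
  obtain ⟨u, rfl⟩ := Multiset.le_iff_exists_add.1 h
  obtain ⟨c, hc, hc2⟩ := hv_spec (K := K) (σ := σ) d s
  rw [← hc2]
  refine (hv_le (c + u.map fun m => ((0 : σ → K), m)) ?_).trans (Submodule.finrank_mono
    (KS_mono fun x hx => Multiset.mem_add.2 (Or.inl hx)))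
  rw [Multiset.map_add, hc, Multiset.map_map]
  congr 1
  exact Multiset.map_id' u

/-- the configuration without the point `v` -/
def cB {σ : Type} (P : Ix × σ → ℂ) (B : Finset (ℕ × ℕ)) : Multiset ((σ → ℂ) × ℕ) :=
  B.val.map fun a => (K4H38FP.pt P (some a), a.1)

lemma GG_eq {E d l : ℕ} {P : Ix × Fin (E + 1 + 1) → ℂ} {B : Finset (ℕ × ℕ)}
    (h0 : K4H38FP.pt P none 0 ≠ 0) (hl : l ≤ d) :
    ((KS d (cB P B) ⊓ LinearMap.ker (D (Fin.cons 1 (fun j : Fin (E + 1) =>
      K4H38FP.pt P none j.succ / K4H38FP.pt P none 0) : Fin (E + 1 + 1) → ℂ) ^ (d + 1 - l))).map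
        (D (Fin.cons 1 (fun j : Fin (E + 1) =>
      K4H38FP.pt P none j.succ / K4H38FP.pt P none 0) : Fin (E + 1 + 1) → ℂ) ^ (d - l))) =
      GG d l P B := by
  set v := K4H38FP.pt P none with hv
  set v' : Fin (E + 1 + 1) → ℂ := Fin.cons 1 (fun j : Fin (E + 1) => v j.succ / v 0) with hv'
  have hvv : v = v 0 • v' := by
    funext j
    refine Fin.cases ?_ (fun j => ?_) j
    · rw [Pi.smul_apply, hv', Fin.cons_zero, smul_eq_mul, mul_one]
    · rw [Pi.smul_apply, hv', Fin.cons_succ, smul_eq_mul, mul_div_cancel₀ _ h0]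
  have hD : ∀ (e : ℕ) (F : MvPolynomial (Fin (E + 1 + 1)) ℂ),
      (D v ^ e) F = v 0 ^ e • (D v' ^ e) F := by
    intro e F
    conv_lhs => rw [hvv]
    rw [Dpow_smul]
  have hKS : KS d (cB P B) ⊓ LinearMap.ker (D v' ^ (d + 1 - l)) = KS d (cfg P l B) := by
    ext F
    rw [Submodule.mem_inf, LinearMap.mem_ker, mem_KS_cfg, mem_KS]
    have e1 : (D v ^ (d + 1 - l)) F = 0 ↔ (D v' ^ (d + 1 - l)) F = 0 := by
      rw [hD, smul_eq_zero]
      exact ⟨fun h => h.resolve_left (pow_ne_zero _ h0), Or.inr⟩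
    constructor
    · rintro ⟨⟨h1, h2⟩, h3⟩
      exact ⟨h1, e1.2 h3, fun a ha => h2 _ (Multiset.mem_map.2 ⟨a, ha, rfl⟩)⟩
    · rintro ⟨h1, h2, h3⟩
      refine ⟨⟨h1, fun c hc => ?_⟩, e1.1 h2⟩
      obtain ⟨a, ha, rfl⟩ := Multiset.mem_map.1 hc
      exact h3 a ha
  rw [hKS]
  unfold GG
  ext F
  simp only [Submodule.mem_map]
  constructor
  · rintro ⟨H, hH, rfl⟩
    refine ⟨(v 0 ^ (d - l))⁻¹ • H, Submodule.smul_mem _ _ hH, ?_⟩
    rw [map_smul, ← hv, hD, smul_smul, inv_mul_cancel₀ (pow_ne_zero _ h0), one_smul]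
  · rintro ⟨H, hH, rfl⟩
    refine ⟨v 0 ^ (d - l) • H, Submodule.smul_mem _ _ hH, ?_⟩
    rw [map_smul, ← hv, hD]

/-- the number of the points in hyperplanes -/
def np (n : ℕ) : ℕ := (n + 1) / 2 * n ^ (n - 1)

theorem core2 {n : ℕ} (hn : 2 ≤ n) {d k : ℕ} (hk : 1 ≤ k) (hkd : k ≤ d) {r : ℕ}
    {s : Fin r → ℕ} (hs : Antitone s) {T : Multiset ℕ} (hT : n - 1 ≤ T.card)
    (hTs : ∀ t ∈ T, ∀ j, s j ≤ t)
    (hgk : gk ℂ (Fin (n + 1)) d k ((Finset.univ : Finset (Fin r)).val.map s) <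
      ak (Fin (n + 1)) k) :
    hv ℂ (Fin (n + 1)) d ((Finset.univ : Finset (Fin r)).val.map s + T) ≤ k ^ n ∧
      ∀ C : Multiset ℕ, np n ≤ C.card → (∀ m ∈ C, k + 1 ≤ m) →
        hv ℂ (Fin (n + 1)) d (C + ((Finset.univ : Finset (Fin r)).val.map s + T)) = 0 := by
  classical
  obtain ⟨B, hB⟩ := exists_fin ((Finset.univ : Finset (Fin r)).val.map s + T)
  have hgen0 : Gen ℂ (fun P : Ix × Fin (n + 1) → ℂ => P (none, 0) ≠ 0) :=
    ⟨X (none, 0), X_ne_zero _, fun P hP => by rwa [eval_X] at hP⟩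
  obtain ⟨P, ⟨⟨hP1, hP2⟩, hP0⟩, hP3, hP4⟩ := no_power (by omega) hk hkd hs hT hTs hgk B hB
    (((gen_all (K := ℂ) (Q := fun l (P : Ix × Fin (n + 1) → ℂ) =>
      finrank ℂ (KS d (cfg P l B)) = hv ℂ (Fin (n + 1)) d (l ::ₘ B.val.map Prod.fst)) (d + 1)
      fun l _ => gen_dim d l B).and
      (gen_all (K := ℂ) (Q := fun l (P : Ix × Fin (n + 1) → ℂ) =>
      finrank ℂ (GG d l P B) = gk ℂ (Fin (n + 1)) d l (B.val.map Prod.fst)) (d + 1)
      fun l hl => gen_GG (by omega) B)).and hgen0)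
  rw [← hB]
  let G : ℕ → Submodule ℂ (MvPolynomial (Fin (n + 1)) ℂ) := fun l =>
    if l ≤ d then GG d l P B else ⊥
  have hG1 : ∀ l, G l ≤ QQ l (K4H38FP.pt P none) := by
    intro l
    simp only [G]
    split_ifs with h
    · exact GG_le h P B
    · exact bot_le
  have hG2 : ∀ l (u : Fin (n + 1) → ℂ), ∀ F ∈ G (l + 1), D u F ∈ G l := by
    intro l u F hF
    simp only [G] at hF ⊢
    split_ifs at hF with h
    · rw [if_pos (by omega)]
      exact der_mem h (hP1 (l + 1) (by omega)) u hF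
    · rw [(Submodule.mem_bot ℂ).1 hF, map_zero]
      exact Submodule.zero_mem _
  have hG3 : ∀ w : Fin (n + 1) → ℂ, w ≠ 0 → dt w (K4H38FP.pt P none) = 0 → lin w ^ k ∉ G k := by
    intro w hw hwq
    simp only [G]
    rw [if_pos hkd]
    exact hP4 w hw hwq
  have hA := algA (by omega) hP3 hk G hG1 hG2 hG3
  obtain ⟨hE1, hE2⟩ := algA_dim (by omega) hP3 hk G hG1 hG2 hG3
  have S := sys (n := n) (by omega) d
  constructor
  · rw [S.h_sum (B.val.map Prod.fst) (d + 1) le_rfl, hv_top (Nat.lt_succ_self d), zero_add]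
    refine le_trans (le_of_eq ?_) (hE2 (d + 1))
    refine Finset.sum_congr rfl fun l hl => ?_
    rw [Finset.mem_range] at hl
    have e1 : G l = GG d l P B := if_pos (by omega)
    rw [← hP2 l hl, e1]
  obtain ⟨E, rfl⟩ : ∃ E, n = E + 1 := ⟨n - 1, by omega⟩
  let Q : Fin (E + 1) → ℂ := fun j => K4H38FP.pt P none j.succ / K4H38FP.pt P none 0
  let N : Submodule ℂ (MvPolynomial (Fin (E + 1 + 1)) ℂ) := KS d (cB P B)
  let W : Submodule ℂ (MvPolynomial (Fin (E + 1)) ℂ) :=
    N.map ((shift Q).toLinearMap ∘ₗ (deh ℂ E).toLinearMap)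
  have hN : N ≤ Rj ℂ (Fin (E + 1 + 1)) d := KS_le d _
  have hLead : ∀ l, Lead W l ≤ (G l).map (psi E).toLinearMap := by
    intro l
    refine (lead_le Q hN).trans ?_
    simp only [G]
    split_ifs with h
    · rw [GG_eq hP0 h]
    · exact bot_le
  haveI hfinG : ∀ l, FiniteDimensional ℂ (G l) := fun l =>
    Submodule.finiteDimensional_of_le (hG1 l)
  have hLdim : ∀ l, finrank ℂ (Lead W l) ≤ finrank ℂ (G l) := by
    intro l
    exact (Submodule.finrank_mono (hLead l)).trans (Submodule.finrank_map_le _ _)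
  have hLbot : ∀ l, (E + 1) * (k - 1) < l → Lead W l = ⊥ := by
    intro l hl
    have h1 := hLead l
    rw [hA l hl, Submodule.map_bot] at h1
    exact le_bot_iff.1 h1
  have hLhom : ∀ l, Lead W l ≤ homogeneousSubmodule (Fin (E + 1)) ℂ l := by
    rintro l _ ⟨f, _, rfl⟩
    exact homogeneousComponent_mem l f
  set c := (E + 1 + 1) / 2 with hc
  have hc1 : 1 ≤ c := by omega
  set M := (E + 1) * (k - 1) with hM
  -- the generic forms
  have hF : ∀ l j : ℕ, ∃ Φ : MvPolynomial (Fin c × Fin (E + 1)) ℂ, Φ ≠ 0 ∧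
      (l ≤ M → M < c * j + l → ∀ u, eval u Φ ≠ 0 → ∀ F ∈ Lead W l, prodLin u j ∣ F → F = 0) := by
    intro l j
    by_cases h : l ≤ M ∧ M < c * j + l
    · obtain ⟨Φ, h1, h2⟩ := genericF (n := E + 1) (s := c) (j := j) (l := l) (by omega)
        (Lead W l) (hLhom l) (by
          refine ((hLdim l).trans (hE1 l h.1)).trans_lt ?_
          rw [Nat.add_sub_cancel]
          have e1 : M - l + (E + 1) - 1 = M - l + E := by omega
          have e2 : c * j + (E + 1) - 1 = c * j + E := by omega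
          rw [e1, e2]
          exact choose_lt (by omega) (by omega))
      exact ⟨Φ, h1, fun _ _ => h2⟩
    · exact ⟨1, one_ne_zero, fun h1 h2 => absurd ⟨h1, h2⟩ h⟩
  choose Φ hΦ0 hΦ using hF
  obtain ⟨u, hu1, hu2⟩ := exists_forms (s := c) (n := E + 1) (by omega)
    (∏ l ∈ Finset.range (M + 1), ∏ j ∈ Finset.range (M + 2), Φ l j)
    (Finset.prod_ne_zero_iff.2 fun l _ => Finset.prod_ne_zero_iff.2 fun j _ => hΦ0 l j)
  have hu3 : ∀ l j, l ≤ M → j ≤ M + 1 → M < c * j + l → ∀ F ∈ Lead W l,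
      prodLin u j ∣ F → F = 0 := by
    intro l j hl hj hlj
    refine hΦ l j hl hlj u ?_
    rw [map_prod, Finset.prod_ne_zero_iff] at hu1
    have h1 := hu1 l (Finset.mem_range.2 (by omega))
    rw [map_prod, Finset.prod_ne_zero_iff] at h1
    exact h1 j (Finset.mem_range.2 (by omega))
  obtain ⟨Pts, hPc, hPts⟩ := kill (E := E) (s := c) (k := k) (by omega) (by omega) hk u hu2
  obtain ⟨ε, _, hε⟩ := collideH (E := E) (d := d) (K := k + 1) W (by
      rintro _ ⟨F, hF, rfl⟩
      exact (totalDegree_shift Q _).trans (totalDegree_deh (hN hF))) Pts (by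
      intro γ hγ1 hγ2
      refine hPts γ (fun j hj hγ0 => ?_) hγ2
      have htop : homogeneousComponent γ.totalDegree γ ≠ 0 := by
        intro h0
        obtain ⟨α, hα, hα2⟩ := (Finset.exists_mem_eq_sup γ.support
          (support_nonempty.2 hγ0) fun m => m.sum fun _ e => e)
        have h1 : coeff α (homogeneousComponent γ.totalDegree γ) = coeff α γ := by
          rw [coeff_homogeneousComponent, if_pos]
          exact hα2.symm
        rw [h0, coeff_zero] at h1
        exact mem_support_iff.1 hα h1.symm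
      have hl : γ.totalDegree ≤ M := by
        by_contra hcon
        have h1 := hγ1 γ.totalDegree
        rw [hLbot _ (by omega), Submodule.mem_bot] at h1
        exact htop h1
      by_contra hcon
      have hcj : M < c * (min j (M + 1)) + γ.totalDegree := by
        rcases le_total j (M + 1) with h | h
        · rw [min_eq_left h]
          omega
        · rw [min_eq_right h]
          have : M + 1 ≤ c * (M + 1) := Nat.le_mul_of_pos_left _ hc1
          omega
      exact htop (hu3 _ _ hl (min_le_right _ _) hcj _ (hγ1 _)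
        (prodLin_dvd ((prodLin_dvd_of_le u (min_le_left _ _)).trans hj))))
  -- the configuration
  have hzero : hv ℂ (Fin (E + 1 + 1)) d
      (Multiset.replicate Pts.card (k + 1) + B.val.map Prod.fst) = 0 := by
    let cc : Multiset ((Fin (E + 1 + 1) → ℂ) × ℕ) :=
      (Pts.val.map fun p => ((Fin.cons 1 (Q + ε • p) : Fin (E + 1 + 1) → ℂ), k + 1)) + cB P B
    have h1 : cc.map Prod.snd = Multiset.replicate Pts.card (k + 1) + B.val.map Prod.fst := by
      simp only [cc, cB]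
      rw [Multiset.map_add, Multiset.map_map, Multiset.map_map]
      congr 1
      exact Multiset.map_const' _ _
    have h2 : KS d cc = ⊥ := by
      rw [eq_bot_iff]
      intro F hF
      rw [Submodule.mem_bot]
      have hFR : F ∈ Rj ℂ (Fin (E + 1 + 1)) d := hF.1
      have hFN : F ∈ N := ⟨hF.1, fun c hc => hF.2 c (Multiset.mem_add.2 (Or.inr hc))⟩
      have h3 := hε (shift Q (deh ℂ E F)) ⟨F, hFN, rfl⟩ (by
        intro p hp
        rw [shift_mem]
        refine (K4H77CW.D_iff _ (k + 1) hFR).1 ?_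
        exact hF.2 ((Fin.cons 1 (Q + ε • p) : Fin (E + 1 + 1) → ℂ), k + 1)
          (Multiset.mem_add.2 (Or.inl (Multiset.mem_map.2 ⟨p, hp, rfl⟩))))
      exact Pool.Agent.H932R5.deh_inj hFR (shift_inj h3)
    have h3 := hv_le (K := ℂ) (d := d) cc h1
    rw [h2, finrank_bot] at h3
    omega
  intro C hC hCk
  have hCc : Pts.card ≤ C.card := by
    refine hPc.trans (le_trans (le_of_eq ?_) hC)
    unfold np
    rw [Nat.add_sub_cancel]
  obtain ⟨C', hC', hC'c⟩ : ∃ C' ≤ C, C'.card = Pts.card := by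
    obtain ⟨l, rfl⟩ := Quot.exists_rep C
    refine ⟨((l.take Pts.card : List ℕ) : Multiset ℕ), ?_, ?_⟩
    · exact Multiset.coe_le.2 (List.take_sublist _ _).subperm
    · change (l.take Pts.card).length = Pts.card
      change Pts.card ≤ l.length at hCc
      rw [List.length_take]
      omega
  have h4 := hv_rep_le (K := ℂ) (σ := Fin (E + 1 + 1)) (d := d) (m := k + 1) C'
    (B.val.map Prod.fst) fun a ha => hCk a (Multiset.mem_of_le hC' ha)
  rw [hC'c, hzero] at h4
  have h5 : C' + B.val.map Prod.fst ≤ C + B.val.map Prod.fst := add_le_add_left hC' _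
  have h6 := hv_mono' (K := ℂ) (σ := Fin (E + 1 + 1)) (d := d) h5
  omega

end

end K4H38CX
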