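import Mathlib

set_option autoImplicit false
set_option linter.unusedSectionVars false

/-!
# Counting the elements of a space of forms by the powers of a linear form (helper32)
-/

namespace K4H38CX

open MvPolynomial Module

noncomputable section

variable {n : ℕ}

/-- the linear form -/
def lf (u : Fin n → ℂ) : MvPolynomial (Fin n) ℂ := ∑ a, C (u a) * X a

lemma lf_ne {u : Fin n → ℂ} (hu : u ≠ 0) : lf u ≠ 0 := by
  intro h
  apply hu
  funext a
  have h1 := congrArg (coeff (Finsupp.single a 1)) h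
  rw [lf, coeff_sum, coeff_zero] at h1
  simp only [coeff_C_mul, coeff_X] at h1
  rw [Finset.sum_eq_single a] at h1
  · simpa using h1
  · intro b _ hb
    rw [if_neg, mul_zero]
    intro h2
    exact hb ((Finsupp.single_left_inj one_ne_zero).1 h2)
  · intro h2; exact absurd (Finset.mem_univ a) h2

/-- the substitution which kills the linear form -/
def rho (u : Fin n → ℂ) (b0 : Fin n) : MvPolynomial (Fin n) ℂ →ₐ[ℂ] MvPolynomial (Fin n) ℂ :=
  aeval fun a => if a = b0 then X b0 - C (u b0)⁻¹ * lf u else X a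

lemma rho_X {u : Fin n → ℂ} {b0 a : Fin n} (ha : a ≠ b0) : rho u b0 (X a) = X a := by
  rw [rho, aeval_X, if_neg ha]

lemma rho_lf {u : Fin n → ℂ} {b0 : Fin n} (hb : u b0 ≠ 0) : rho u b0 (lf u) = 0 := by
  have h1 : rho u b0 (lf u) = ∑ a, C (u a) * (if a = b0 then X b0 - C (u b0)⁻¹ * lf u else X a) := by
    conv_lhs => rw [lf]
    rw [map_sum]
    refine Finset.sum_congr rfl fun a _ => ?_
    rw [map_mul, rho, aeval_X]
    congr 1
    exact aeval_C _ _
  rw [h1]
  have h2 : ∀ a, C (u a) * (if a = b0 then X b0 - C (u b0)⁻¹ * lf u else X a) =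
      C (u a) * X a - (if a = b0 then lf u else 0) := by
    intro a
    by_cases ha : a = b0
    · subst ha
      rw [if_pos rfl, if_pos rfl, mul_sub, ← mul_assoc, ← C_mul, mul_inv_cancel₀ hb, C_1, one_mul]
    · rw [if_neg ha, if_neg ha, sub_zero]
  simp only [h2]
  rw [Finset.sum_sub_distrib, Finset.sum_ite_eq']
  simp [lf]

lemma dvd_sub_rho {u : Fin n → ℂ} {b0 : Fin n} (p : MvPolynomial (Fin n) ℂ) :
    lf u ∣ p - rho u b0 p := by
  rw [← Ideal.mem_span_singleton, ← Ideal.Quotient.eq]
  have h1 : (Ideal.Quotient.mkₐ ℂ (Ideal.span {lf u})).comp (rho u b0) =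
      Ideal.Quotient.mkₐ ℂ (Ideal.span {lf u}) := by
    apply algHom_ext
    intro a
    rw [AlgHom.comp_apply]
    by_cases ha : a = b0
    · subst ha
      rw [rho, aeval_X, if_pos rfl, map_sub, map_mul]
      have h2 : (Ideal.Quotient.mkₐ ℂ (Ideal.span {lf u})) (lf u) = 0 :=
        Ideal.Quotient.eq_zero_iff_mem.2 (Ideal.mem_span_singleton_self _)
      rw [h2, mul_zero, sub_zero]
    · rw [rho_X ha]
  exact (DFunLike.congr_fun h1 p).symm

lemma rho_ne {u : Fin n → ℂ} {b0 : Fin n} {q : MvPolynomial (Fin n) ℂ} (hq : ¬ lf u ∣ q) :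
    rho u b0 q ≠ 0 := by
  intro h
  apply hq
  have h1 := dvd_sub_rho (u := u) (b0 := b0) q
  rwa [h, sub_zero] at h1

lemma rho_monomial {u : Fin n → ℂ} {b0 : Fin n} {κ : Fin n →₀ ℕ} (hκ : κ b0 = 0) :
    rho u b0 (monomial κ 1) = monomial κ 1 := by
  have h1 : (monomial κ 1 : MvPolynomial (Fin n) ℂ) = ∏ a, X a ^ κ a := by
    rw [monomial_eq, C_1, one_mul, Finsupp.prod_fintype _ _ (fun _ => pow_zero _)]
  rw [h1, map_prod]
  refine Finset.prod_congr rfl fun a _ => ?_
  rw [map_pow]
  by_cases ha : a = b0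
  · subst ha
    rw [hκ, pow_zero, pow_zero]
  · rw [rho_X ha]

theorem count {i0 : ℕ} (hn : 1 ≤ n) {u : Fin n → ℂ} {b0 : Fin n} (hb : u b0 ≠ 0)
    {q0 : MvPolynomial (Fin n) ℂ} (hq0 : ¬ lf u ∣ q0)
    (W : Submodule ℂ (MvPolynomial (Fin n) ℂ)) [FiniteDimensional ℂ W]
    (h : ∀ κ : Fin n →₀ ℕ, κ.degree ≤ i0 → ∃ F ∈ W, ∃ r,
      F = lf u ^ (i0 - κ.degree) * (monomial κ 1 * q0 + lf u * r)) :
    (i0 + n - 1).choose (n - 1) ≤ finrank ℂ W := by
  classical
  have hu : lf u ≠ 0 := lf_ne fun h => hb (by rw [h]; rfl)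
  let T : Finset (Fin n →₀ ℕ) := (Finset.univ : Finset (Fin n)).finsuppAntidiag i0
  have hT : ∀ κ : Fin n →₀ ℕ, κ ∈ T ↔ κ.degree = i0 := by
    intro κ
    simp only [T, Finset.mem_finsuppAntidiag, Finset.subset_univ, and_true]
    rw [Finsupp.degree_eq_sum]
  have her : ∀ κ : T, (κ.1.erase b0).degree + κ.1 b0 = i0 := by
    intro κ
    have h1 := (hT κ.1).1 κ.2
    have h2 : κ.1 = κ.1.erase b0 + Finsupp.single b0 (κ.1 b0) := (Finsupp.erase_add_single _ _).symm
    rw [h2, map_add, Finsupp.degree_single] at h1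
    simpa using h1
  have hF : ∀ κ : T, ∃ F ∈ W, ∃ r,
      F = lf u ^ (κ.1 b0) * (monomial (κ.1.erase b0) 1 * q0 + lf u * r) := by
    intro κ
    have h1 := her κ
    obtain ⟨F, hF, r, hr⟩ := h (κ.1.erase b0) (by omega)
    refine ⟨F, hF, r, ?_⟩
    rw [hr]
    congr 2
    omega
  choose F hFW r hFr using hF
  have hind : LinearIndependent ℂ (fun κ : T => (⟨F κ, hFW κ⟩ : W)) := by
    rw [Fintype.linearIndependent_iff]
    intro c hc
    have hc' : ∑ κ : T, c κ • F κ = 0 := by
      have h1 := congrArg (fun x : W => (x : MvPolynomial (Fin n) ℂ)) hc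
      simpa using h1
    have key : ∀ j : ℕ, ∀ κ : T, κ.1 b0 = j → c κ = 0 := by
      intro j
      induction j using Nat.strong_induction_on with
      | _ j ih =>
        let G : T → MvPolynomial (Fin n) ℂ := fun κ => if κ.1 b0 < j then 0 else
          lf u ^ (κ.1 b0 - j) * (monomial (κ.1.erase b0) 1 * q0 + lf u * r κ)
        have h1 : ∑ κ : T, c κ • F κ = lf u ^ j * ∑ κ : T, c κ • G κ := by
          rw [Finset.mul_sum]
          refine Finset.sum_congr rfl fun κ _ => ?_
          by_cases hκ : κ.1 b0 < j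
          · rw [ih _ hκ κ rfl, zero_smul, zero_smul, mul_zero]
          · simp only [G, if_neg hκ]
            rw [hFr κ, mul_smul_comm, ← mul_assoc, ← pow_add]
            congr 3
            omega
        rw [hc'] at h1
        have h2 : ∑ κ : T, c κ • G κ = 0 :=
          (mul_eq_zero.1 h1.symm).resolve_left (pow_ne_zero _ hu)
        have h3 := congrArg (rho u b0) h2
        rw [map_sum, map_zero] at h3
        have h4 : ∀ κ : T, rho u b0 (c κ • G κ) =
            (if κ.1 b0 = j then monomial (κ.1.erase b0) (c κ) else 0) * rho u b0 q0 := by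
          intro κ
          rw [map_smul]
          simp only [G]
          rcases lt_trichotomy (κ.1 b0) j with hκ | hκ | hκ
          · rw [if_pos hκ, if_neg hκ.ne, map_zero, smul_zero, zero_mul]
          · rw [if_neg (by omega), if_pos hκ, hκ, Nat.sub_self, pow_zero, one_mul, map_add, map_mul,
              map_mul, rho_lf hb, zero_mul, add_zero, rho_monomial (by simp),
              ← smul_mul_assoc, smul_monomial, smul_eq_mul, mul_one]
          · rw [if_neg (by omega), if_neg hκ.ne', map_mul, map_pow, rho_lf hb, zero_pow (by omega),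
              zero_mul, smul_zero, zero_mul]
        rw [Finset.sum_congr rfl fun κ _ => h4 κ, ← Finset.sum_mul] at h3
        have h5 := (mul_eq_zero.1 h3).resolve_right (rho_ne hq0)
        intro κ0 hκ0
        have h6 := congrArg (coeff (κ0.1.erase b0)) h5
        rw [coeff_sum, coeff_zero, Finset.sum_eq_single κ0] at h6
        · rw [if_pos hκ0, coeff_monomial, if_pos rfl] at h6
          exact h6
        · intro κ _ hκ
          by_cases hj : κ.1 b0 = j
          · rw [if_pos hj, coeff_monomial, if_neg]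
            intro h7
            apply hκ
            apply Subtype.ext
            rw [← Finsupp.erase_add_single b0 κ.1, ← Finsupp.erase_add_single b0 κ0.1, h7, hj, hκ0]
          · rw [if_neg hj, coeff_zero]
        · intro h7
          exact absurd (Finset.mem_univ κ0) h7
    exact fun κ => key _ κ rfl
  have h1 := hind.fintype_card_le_finrank
  rw [Fintype.card_coe] at h1
  have h2 : T.card = (i0 + n - 1).choose (n - 1) := by
    rw [Finset.card_finsuppAntidiag_nat_eq_choose, Finset.card_univ, Fintype.card_fin,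
      Nat.add_comm n i0]
    exact Nat.choose_symm_of_eq_add (by omega)
  rwa [h2] at h1

end

end K4H38CX
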