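import Pool.Agent.K4H38.FP.Core
import Pool.Agent.TH144.MB.Basic
import Pool.Agent.K4H38.CX.F1a

set_option autoImplicit false
set_option linter.unusedSectionVars false

/-!
# Differentiation of the elements divisible by a power of a general linear form (helper32)
-/

namespace K4H38CX

open MvPolynomial Module H350MG K4H38FP

noncomputable section

variable {n : ℕ}

lemma lf_eq_lin (u : Fin n → ℂ) : lf u = lin u := by
  unfold lf lin
  simp only [smul_eq_C_mul]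

lemma lf_hom (u : Fin n → ℂ) : (lf u).IsHomogeneous 1 := by
  rw [lf_eq_lin]
  exact lin_hom u

lemma lf_add (u w : Fin n → ℂ) (t : ℂ) : lf (u + t • w) = t • lf w + lf u := by
  unfold lf
  rw [Finset.smul_sum, ← Finset.sum_add_distrib]
  refine Finset.sum_congr rfl fun a _ => ?_
  rw [Pi.add_apply, Pi.smul_apply, smul_eq_mul, C_add, C_mul, smul_eq_C_mul]
  ring

/-- the divided difference of the power -/
def Bt (u w : Fin n → ℂ) (e : ℕ) (t : ℂ) : MvPolynomial (Fin n) ℂ :=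
  ∑ j ∈ Finset.range (e + 1), (t ^ j * ((e + 1).choose (j + 1) : ℂ)) •
    (lf w ^ (j + 1) * lf u ^ (e - j))

lemma pow_add_Bt (u w : Fin n → ℂ) (e : ℕ) (t : ℂ) :
    lf (u + t • w) ^ (e + 1) = lf u ^ (e + 1) + t • Bt u w e t := by
  rw [lf_add, add_pow, Finset.sum_range_succ']
  simp only [pow_zero, Nat.sub_zero, one_mul, Nat.choose_zero_right, Nat.cast_one, mul_one]
  rw [add_comm]
  congr 1
  unfold Bt
  rw [Finset.smul_sum]
  refine Finset.sum_congr rfl fun j _ => ?_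
  rw [smul_pow, smul_smul, smul_mul_assoc, smul_mul_assoc, Nat.add_sub_add_right]
  rw [← nsmul_eq_mul', ← Nat.cast_smul_eq_nsmul ℂ, smul_smul]
  congr 1
  ring

lemma Bt_zero (u w : Fin n → ℂ) (e : ℕ) :
    Bt u w e 0 = ((e : ℂ) + 1) • (lf w * lf u ^ e) := by
  unfold Bt
  rw [Finset.sum_range_succ']
  have : ∑ j ∈ Finset.range e, ((0 : ℂ) ^ (j + 1) * ((e + 1).choose (j + 1 + 1) : ℂ)) •
      (lf w ^ (j + 1 + 1) * lf u ^ (e - (j + 1))) = 0 := by
    refine Finset.sum_eq_zero fun j _ => ?_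
    rw [zero_pow (Nat.succ_ne_zero j), zero_mul, zero_smul]
  rw [this, zero_add]
  simp

lemma isPoly_Bt (u w : Fin n → ℂ) (e : ℕ) (μ : MvPolynomial (Fin n) ℂ →ₗ[ℂ] ℂ) :
    IsPoly (fun θ : Unit → ℂ => μ (Bt u w e (θ ()))) := by
  unfold Bt
  simp only [map_sum, map_smul, smul_eq_mul, mul_assoc]
  exact IsPoly.sum _ fun j _ => (isPoly_pow () j).mul (H350MG.IsPoly.const _)

/-- pairs -/
abbrev VV (W : Submodule ℂ (MvPolynomial (Fin n) ℂ)) (l i : ℕ) : Type :=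
  W × homogeneousSubmodule (Fin n) ℂ (l - i)

/-- the map whose kernel consists of the elements of `W` divisible by the power -/
def LL (W : Submodule ℂ (MvPolynomial (Fin n) ℂ)) (l i : ℕ) (u : Fin n → ℂ) :
    (W × homogeneousSubmodule (Fin n) ℂ (l - i)) →ₗ[ℂ] MvPolynomial (Fin n) ℂ :=
  W.subtype ∘ₗ LinearMap.fst ℂ _ _ -
    (LinearMap.mulLeft ℂ (lf u ^ i)) ∘ₗ (homogeneousSubmodule (Fin n) ℂ (l - i)).subtype ∘ₗ
      LinearMap.snd ℂ _ _

lemma LL_apply (W : Submodule ℂ (MvPolynomial (Fin n) ℂ)) (l i : ℕ) (u : Fin n → ℂ)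
    (x : W × homogeneousSubmodule (Fin n) ℂ (l - i)) :
    LL W l i u x = (x.1 : MvPolynomial (Fin n) ℂ) - lf u ^ i * (x.2 : MvPolynomial (Fin n) ℂ) := rfl

lemma exists_eval_ne {ι : Type} {Φ : MvPolynomial ι ℂ} (h : Φ ≠ 0) : ∃ P : ι → ℂ, eval P Φ ≠ 0 := by
  by_contra hcon
  push Not at hcon
  exact h (MvPolynomial.funext fun w => by rw [hcon w, map_zero])

/-- a general linear form -/
lemma exists_general (hn : 1 ≤ n) (W : Submodule ℂ (MvPolynomial (Fin n) ℂ))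
    [FiniteDimensional ℂ W] (l : ℕ) : ∃ u : Fin n → ℂ, u ≠ 0 ∧ ∀ i ≤ l, ∀ u' : Fin n → ℂ, u' ≠ 0 →
      finrank ℂ (LinearMap.ker (LL W l i u)) ≤ finrank ℂ (LinearMap.ker (LL W l i u')) := by
  let a0 : Fin n := ⟨0, hn⟩
  have hne : Nonempty {u : Fin n → ℂ // u ≠ 0} :=
    ⟨⟨Pi.single a0 1, fun h => one_ne_zero (α := ℂ) (by
      have := congrFun h a0
      rwa [Pi.single_eq_same] at this)⟩⟩
  let z : ℕ → {u : Fin n → ℂ // u ≠ 0} → ℕ := fun i u =>
    finrank ℂ (LinearMap.ker (LL W l i u.1))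
  have h1 : ∀ i, ∃ Φ : MvPolynomial (Fin n) ℂ, Φ ≠ 0 ∧ ∀ P, eval P Φ ≠ 0 →
      finrank ℂ (LinearMap.ker (LL W l i P)) ≤
        finrank ℂ (LinearMap.ker (LL W l i (Function.argmin (z i)).1)) := by
    intro i
    refine generic_ker (LL W l i) ?_ _
    intro x ψ
    obtain ⟨p, hp⟩ := isPoly_linpow (K := ℂ) (σ := Fin n)
      (ψ ∘ₗ LinearMap.mulRight ℂ (x.2 : MvPolynomial (Fin n) ℂ)) i
    refine ⟨C (ψ x.1) - p, fun P => ?_⟩
    change _ = ψ (LL W l i P x)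
    rw [map_sub, eval_C, hp, LL_apply, map_sub, lf_eq_lin]
    rfl
  choose Φ hΦ0 hΦ using h1
  obtain ⟨u, hu⟩ := exists_eval_ne (Φ := (∏ i ∈ Finset.range (l + 1), Φ i) * X a0)
    (mul_ne_zero (Finset.prod_ne_zero_iff.2 fun i _ => hΦ0 i) (X_ne_zero a0))
  rw [map_mul, map_prod, eval_X] at hu
  refine ⟨u, ?_, ?_⟩
  · rintro rfl
    exact right_ne_zero_of_mul hu rfl
  · intro i hi u' hu'
    have h2 := Finset.prod_ne_zero_iff.1 (left_ne_zero_of_mul hu) i (Finset.mem_range.2 (by omega))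
    exact (hΦ i u h2).trans (Function.argmin_le (z i) ⟨u', hu'⟩)

/-- the quotient of a form by a power of a linear form is a form -/
lemma quot_hom {u : Fin n → ℂ} (hu : u ≠ 0) {l i : ℕ} (hi : i ≤ l) {q : MvPolynomial (Fin n) ℂ}
    (h : (lf u ^ i * q).IsHomogeneous l) : q.IsHomogeneous (l - i) := by
  have h1 : (lf u ^ i).IsHomogeneous i := by
    have := (lf_hom u).pow i
    rwa [one_mul] at this
  have h2 := Pool.Agent.TH144.MB.comp_mul h1 q (l - i)
  rw [Nat.add_sub_cancel' hi, homogeneousComponent_of_mem h, if_pos rfl] at h2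
  have h3 := mul_left_cancel₀ (pow_ne_zero i (lf_ne hu)) h2
  rw [h3]
  exact homogeneousComponent_isHomogeneous _ _

/-- the derivative of a family of linear maps of constant rank maps the kernel to the range -/
theorem const_rank {V M : Type} [AddCommGroup V] [Module ℂ V] [FiniteDimensional ℂ V]
    [AddCommGroup M] [Module ℂ M] (L0 : V →ₗ[ℂ] M) (B Lt : ℂ → V →ₗ[ℂ] M)
    (hB : ∀ (x : V) (ψ : M →ₗ[ℂ] ℂ), IsPoly (fun θ : Unit → ℂ => ψ (B (θ ()) x)))
    (hLt : ∀ t x, Lt t x = L0 x + t • B t x) (g : MvPolynomial Unit ℂ) (hg : g ≠ 0)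
    (hmin : ∀ θ : Unit → ℂ, eval θ g ≠ 0 →
      finrank ℂ (LinearMap.ker L0) ≤ finrank ℂ (LinearMap.ker (Lt (θ ()))))
    {x0 : V} (hx0 : L0 x0 = 0) : ∃ y, L0 y = B 0 x0 := by
  let L : (Unit → ℂ) → (V × ℂ) →ₗ[ℂ] M := fun θ =>
    (Lt (θ ())) ∘ₗ LinearMap.fst ℂ _ _ -
      (LinearMap.toSpanSingleton ℂ _ (B (θ ()) x0)) ∘ₗ LinearMap.snd ℂ _ _
  have hLx : ∀ θ x, L θ x = Lt (θ ()) x.1 - x.2 • B (θ ()) x0 := fun θ x => rfl
  have hL : ∀ (x : V × ℂ) (ψ : M →ₗ[ℂ] ℂ), IsPoly (fun θ => ψ (L θ x)) := by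
    intro x ψ
    have h1 : (fun θ => ψ (L θ x)) = fun θ : Unit → ℂ =>
        (ψ (L0 x.1) + θ () * ψ (B (θ ()) x.1)) + (-x.2) * ψ (B (θ ()) x0) := by
      funext θ
      rw [hLx, hLt, map_sub, map_add, map_smul, map_smul, smul_eq_mul, smul_eq_mul]
      ring
    rw [h1]
    exact isPoly_add (isPoly_add (H350MG.IsPoly.const _)
      ((H350MG.IsPoly.coord ()).mul (hB _ _))) ((H350MG.IsPoly.const _).mul (hB _ _))
  obtain ⟨Φ, hΦ0, hΦ⟩ := generic_ker L hL (fun _ => 0)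
  obtain ⟨θ, hθ⟩ := exists_eval_ne (mul_ne_zero (mul_ne_zero hΦ0 (X_ne_zero ())) hg)
  rw [map_mul, map_mul, eval_X] at hθ
  have ht : θ () ≠ 0 := right_ne_zero_of_mul (left_ne_zero_of_mul hθ)
  have h1 := hΦ θ (left_ne_zero_of_mul (left_ne_zero_of_mul hθ))
  -- the kernel for this parameter
  have h2 : finrank ℂ (LinearMap.ker L0) + 1 ≤ finrank ℂ (LinearMap.ker (L θ)) := by
    let N := LinearMap.ker (Lt (θ ()))
    have hN : finrank ℂ (LinearMap.ker L0) ≤ finrank ℂ N := hmin θ (right_ne_zero_of_mul hθ)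
    let T : (N × ℂ) →ₗ[ℂ] (V × ℂ) :=
      LinearMap.prod (N.subtype ∘ₗ LinearMap.fst ℂ _ _ +
        (LinearMap.toSpanSingleton ℂ _ x0) ∘ₗ LinearMap.snd ℂ _ _)
        ((θ ()) • LinearMap.snd ℂ _ _)
    have hT : ∀ x : N × ℂ, T x = ((x.1 : V) + x.2 • x0, (θ ()) * x.2) := fun x => rfl
    have hmem : ∀ x, T x ∈ LinearMap.ker (L θ) := by
      intro x
      rw [LinearMap.mem_ker, hT, hLx]
      have r1 : Lt (θ ()) (x.1 : V) = 0 := x.1.2
      have r2 : Lt (θ ()) x0 = (θ ()) • B (θ ()) x0 := by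
        rw [hLt, hx0, zero_add]
      change Lt (θ ()) ((x.1 : V) + x.2 • x0) - ((θ ()) * x.2) • B (θ ()) x0 = 0
      rw [map_add, map_smul, r1, r2, zero_add, smul_smul, mul_comm, sub_self]
    have hinj : Function.Injective (T.codRestrict (LinearMap.ker (L θ)) hmem) := by
      refine (injective_iff_map_eq_zero _).2 fun x hx => ?_
      have hx : T x = 0 := congrArg Subtype.val hx
      rw [hT, Prod.mk_eq_zero] at hx
      have h5 : x.2 = 0 := (mul_eq_zero.1 hx.2).resolve_left ht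
      have h6 := hx.1
      rw [h5, zero_smul, add_zero] at h6
      exact Prod.ext (Subtype.ext h6) h5
    have h3 := LinearMap.finrank_le_finrank_of_injective hinj
    rw [Module.finrank_prod, Module.finrank_self] at h3
    omega
  -- the kernel at zero
  have h3 : ∃ x ∈ LinearMap.ker (L fun _ => 0), x.2 ≠ 0 := by
    by_contra hz
    push Not at hz
    let T : LinearMap.ker (L fun _ => 0) →ₗ[ℂ] V :=
      (LinearMap.fst ℂ _ _) ∘ₗ (LinearMap.ker (L fun _ => 0)).subtype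
    have hT : ∀ x, T x = x.1.1 := fun x => rfl
    have hinj : Function.Injective T := by
      refine (injective_iff_map_eq_zero _).2 fun x hx => ?_
      rw [hT] at hx
      exact Subtype.ext (Prod.ext hx (hz x.1 x.2))
    have hr : LinearMap.range T ≤ LinearMap.ker L0 := by
      rintro _ ⟨x, rfl⟩
      have hx : Lt 0 x.1.1 - x.1.2 • B 0 x0 = 0 := LinearMap.mem_ker.1 x.2
      rw [hz x.1 x.2, zero_smul, sub_zero, hLt, zero_smul, add_zero] at hx
      exact hx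
    have h4 : finrank ℂ (LinearMap.ker (L fun _ => 0)) ≤ finrank ℂ (LinearMap.ker L0) := by
      rw [← LinearMap.finrank_range_of_inj hinj]
      exact Submodule.finrank_mono hr
    omega
  obtain ⟨x, hx, hx2⟩ := h3
  have hx : Lt 0 x.1 - x.2 • B 0 x0 = 0 := LinearMap.mem_ker.1 hx
  rw [hLt, zero_smul, add_zero, sub_eq_zero] at hx
  exact ⟨(x.2)⁻¹ • x.1, by rw [map_smul, hx, smul_smul, inv_mul_cancel₀ hx2, one_smul]⟩

/-- the derivative -/
theorem deriv_mem (W : Submodule ℂ (MvPolynomial (Fin n) ℂ)) {l : ℕ}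
    (hW : W ≤ homogeneousSubmodule (Fin n) ℂ l) {u : Fin n → ℂ} (hu : u ≠ 0) {i : ℕ} (hi : 1 ≤ i)
    (hil : i ≤ l) (hmin : ∀ u' : Fin n → ℂ, u' ≠ 0 →
      finrank ℂ (LinearMap.ker (LL W l i u)) ≤ finrank ℂ (LinearMap.ker (LL W l i u')))
    {q : MvPolynomial (Fin n) ℂ} (hg : lf u ^ i * q ∈ W) (w : Fin n → ℂ) :
    ∃ F ∈ W, ∃ q', F = lf u ^ (i - 1) * (lf w * q + lf u * q') := by
  have : FiniteDimensional ℂ W := Submodule.finiteDimensional_of_le hW
  obtain ⟨e, rfl⟩ := Nat.exists_eq_add_of_le' hi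
  have hq : q.IsHomogeneous (l - (e + 1)) := quot_hom hu hil (hW hg)
  obtain ⟨a0, ha0⟩ : ∃ a, u a ≠ 0 := by
    by_contra hcon
    push Not at hcon
    exact hu (funext hcon)
  have hne : (C (u a0) + C (w a0) * X () : MvPolynomial Unit ℂ) ≠ 0 := by
    intro h
    have h1 := congrArg (eval (fun _ => (0 : ℂ))) h
    simp at h1
    exact ha0 h1
  let B : ℂ → (W × homogeneousSubmodule (Fin n) ℂ (l - (e + 1))) →ₗ[ℂ] MvPolynomial (Fin n) ℂ :=
    fun t => -((LinearMap.mulLeft ℂ (Bt u w e t)) ∘ₗ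
      (homogeneousSubmodule (Fin n) ℂ (l - (e + 1))).subtype ∘ₗ LinearMap.snd ℂ _ _)
  have hB : ∀ t x, B t x = -(Bt u w e t * (x.2 : MvPolynomial (Fin n) ℂ)) := fun t x => rfl
  obtain ⟨y, hy⟩ := const_rank (LL W l (e + 1) u) B (fun t => LL W l (e + 1) (u + t • w)) (by
      intro x ψ
      have h1 : (fun θ : Unit → ℂ => ψ (B (θ ()) x)) = fun θ : Unit → ℂ =>
          (-1) * (ψ ∘ₗ LinearMap.mulRight ℂ (x.2 : MvPolynomial (Fin n) ℂ)) (Bt u w e (θ ())) := by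
        funext θ
        rw [hB, map_neg, LinearMap.comp_apply, LinearMap.mulRight_apply]
        ring
      rw [h1]
      exact (H350MG.IsPoly.const _).mul (isPoly_Bt u w e _)) (by
      intro t x
      rw [LL_apply, LL_apply, pow_add_Bt, add_mul, smul_mul_assoc, sub_add_eq_sub_sub, hB, smul_neg,
        sub_eq_add_neg]) _ hne (by
      intro θ hθ
      refine hmin _ ?_
      intro h
      apply hθ
      have h1 := congrFun h a0
      rw [Pi.add_apply, Pi.smul_apply, smul_eq_mul, Pi.zero_apply] at h1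
      rw [map_add, map_mul, eval_C, eval_C, eval_X, mul_comm]
      exact h1) (x0 := (⟨_, hg⟩, ⟨q, hq⟩)) (by
      rw [LL_apply]
      exact sub_self _)
  rw [hB, Bt_zero, LL_apply] at hy
  have hne2 : -((e : ℂ) + 1) ≠ 0 := neg_ne_zero.2 (Nat.cast_add_one_ne_zero e)
  refine ⟨(-((e : ℂ) + 1))⁻¹ • (y.1 : MvPolynomial (Fin n) ℂ),
    Submodule.smul_mem _ _ y.1.2, (-((e : ℂ) + 1))⁻¹ • (y.2 : MvPolynomial (Fin n) ℂ), ?_⟩
  have hy' : (y.1 : MvPolynomial (Fin n) ℂ) = lf u ^ (e + 1) * (y.2 : MvPolynomial (Fin n) ℂ) +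
      (-((e : ℂ) + 1)) • (lf w * lf u ^ e * q) := by
    rw [sub_eq_iff_eq_add] at hy
    rw [hy, neg_smul, smul_mul_assoc, add_comm]
  rw [hy', smul_add, smul_smul, inv_mul_cancel₀ hne2, one_smul, Nat.add_sub_cancel]
  simp only [smul_eq_C_mul]
  ring

end

end K4H38CX
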