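import Mathlib
import Pool.Agent.K4H38.CX.Core2
import Pool.Agent.K4H38.CW.TaskS

/-!
All but the `⌈n / 2⌉ n ^ (n - 1) + n - 2` largest multiplicities impose independent conditions.
-/

set_option autoImplicit false
set_option linter.unusedSectionVars false

namespace K4H38CX

open MvPolynomial H350MG Module K4H38FP
open K4H38CW (two_points count_forms)

noncomputable section

/-- the number of the points which are left out -/
def cc (n : ℕ) : ℕ := np n + n - 2

lemma hv_zero_of_gk {n : ℕ} (hn : 2 ≤ n) {d m : ℕ} {L l : List ℕ}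
    (hp : (L ++ m :: l).Pairwise (· ≥ ·)) (hL : cc n ≤ L.length) {k : ℕ} (hkm : k < m)
    (hmd : m ≤ d) (hgk : gk ℂ (Fin (n + 1)) d k (l : Multiset ℕ) < ak (Fin (n + 1)) k) :
    hv ℂ (Fin (n + 1)) d ((L ++ m :: l : List ℕ) : Multiset ℕ) = 0 := by
  rcases Nat.eq_zero_or_pos k with hk | hk
  · subst hk
    have h1 : ak (Fin (n + 1)) 0 = 1 := by
      rw [ak_fin (by omega), Nat.add_zero, Nat.choose_self]
    rw [h1] at hgk
    have h2 := hv_of_gk (K := ℂ) (σ := Fin (n + 1)) (s := (l : Multiset ℕ)) d 0 (Nat.zero_add d)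
      (by omega)
    rw [hv_zero] at h2
    have h3 : (l : Multiset ℕ) ≤ ((L ++ m :: l : List ℕ) : Multiset ℕ) := by
      rw [Multiset.coe_le]
      exact ((List.sublist_cons_self m l).trans (List.sublist_append_right L _)).subperm
    have := hv_mono' (K := ℂ) (σ := Fin (n + 1)) (d := d) h3
    omega
  have hpow : 1 ≤ np n := by
    unfold np
    have h1 : 1 ≤ (n + 1) / 2 := by omega
    have h2 : 1 ≤ n ^ (n - 1) := Nat.one_le_pow _ _ (by omega)
    exact Nat.mul_pos h1 h2
  have hL' : (L ++ [m]).length = L.length + 1 := by simp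
  unfold cc at hL
  have hp' : ((L ++ [m]) ++ l).Pairwise (· ≥ ·) := by
    rw [List.append_assoc]
    exact hp
  have hp2 := List.pairwise_append.1 hp'
  -- all elements of `L ++ [m]` are at least `m`
  have hge : ∀ a ∈ L ++ [m], m ≤ a := by
    intro a ha
    rw [List.mem_append, List.mem_singleton] at ha
    rcases ha with ha | rfl
    · exact (List.pairwise_append.1 hp2.1).2.2 a ha m (List.mem_singleton_self m)
    · exact le_rfl
  have hsl : ∀ b ∈ l, b ≤ m := by
    intro b hb
    exact hp2.2.2 m (by simp) b hb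
  have hs : Antitone l.get := by
    intro i j hij
    rcases hij.eq_or_lt with rfl | h
    · exact le_rfl
    · exact List.pairwise_iff_get.1 hp2.2.1 i j h
  have hval : (Finset.univ : Finset (Fin l.length)).val.map l.get = (l : Multiset ℕ) := by
    rw [Fin.univ_val_map, List.ofFn_get]
  let T : Multiset ℕ := ((L ++ [m]).take (n - 1) : List ℕ)
  let C : Multiset ℕ := (((L ++ [m]).drop (n - 1)).take (np n) : List ℕ)
  have hB := (core2 (n := n) (d := d) (k := k) hn hk (by omega) hs (T := T) (by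
      change n - 1 ≤ ((L ++ [m]).take (n - 1)).length
      rw [List.length_take, hL']
      omega) (by
      intro t ht j
      have h1 : t ∈ L ++ [m] := List.mem_of_mem_take (Multiset.mem_coe.1 ht)
      exact (hsl _ (List.get_mem l j)).trans (hge t h1)) (by rw [hval]; exact hgk)).2
  rw [hval] at hB
  have hC := hB C (by
      change _ ≤ (((L ++ [m]).drop (n - 1)).take (np n)).length
      rw [List.length_take, List.length_drop, hL']
      omega) (by
      intro a ha
      have h1 : a ∈ L ++ [m] := List.mem_of_mem_drop (List.mem_of_mem_take (Multiset.mem_coe.1 ha))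
      exact Nat.succ_le_of_lt (hkm.trans_le (hge a h1)))
  have hle : C + ((l : Multiset ℕ) + T) ≤ ((L ++ m :: l : List ℕ) : Multiset ℕ) := by
    have e1 : C + ((l : Multiset ℕ) + T) = (((L ++ [m]).take (n - 1) ++
        ((L ++ [m]).drop (n - 1)).take (np n) ++ l : List ℕ) : Multiset ℕ) := by
      rw [← Multiset.coe_add, ← Multiset.coe_add]
      change C + ((l : Multiset ℕ) + T) = T + C + l
      abel
    rw [e1, Multiset.coe_le]
    have e2 : (L ++ m :: l : List ℕ) = ((L ++ [m]).take (n - 1) ++ (L ++ [m]).drop (n - 1)) ++ l := by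
      rw [List.take_append_drop, List.append_assoc]
      rfl
    rw [e2]
    exact (((List.Sublist.refl _).append (List.take_sublist _ _)).append
      (List.Sublist.refl _)).subperm
  have := hv_mono' (K := ℂ) (σ := Fin (n + 1)) (d := d) hle
  omega

theorem tail_indep {n : ℕ} (hn : 2 ≤ n) (d : ℕ) : ∀ (l L : List ℕ),
    (L ++ l).Pairwise (· ≥ ·) → cc n ≤ L.length →
      hv ℂ (Fin (n + 1)) d ((L ++ l : List ℕ) : Multiset ℕ) ≠ 0 →
        hv ℂ (Fin (n + 1)) d (l : Multiset ℕ) + (l.map (nc n)).sum = (n + d).choose n := by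
  have S := sys (n := n) (by omega) d
  intro l
  induction l with
  | nil =>
    intro L _ _ _
    change hv ℂ (Fin (n + 1)) d 0 + 0 = _
    rw [add_zero]
    exact S.h7
  | cons m l ih =>
    intro L hp hL h0
    have ih1 := ih (L ++ [m]) (by rw [List.append_assoc]; exact hp) (by simp; omega)
      (by rw [List.append_assoc]; exact h0)
    have hmd : m ≤ d := by
      by_contra hcon
      apply h0
      have h1 : ((m :: l : List ℕ) : Multiset ℕ) ≤ ((L ++ m :: l : List ℕ) : Multiset ℕ) := by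
        rw [Multiset.coe_le]
        exact (List.sublist_append_right L _).subperm
      have h2 := hv_mono' (K := ℂ) (σ := Fin (n + 1)) (d := d) h1
      have h3 : hv ℂ (Fin (n + 1)) d ((m :: l : List ℕ) : Multiset ℕ) = 0 :=
        hv_top (by omega) (l : Multiset ℕ)
      omega
    have h1 := S.h_sum (l : Multiset ℕ) m (by omega)
    have h2 : ∑ k ∈ Finset.range m, gk ℂ (Fin (n + 1)) d k (l : Multiset ℕ) = nc n m := by
      rw [S.N_sum]
      refine Finset.sum_congr rfl fun k hk => ?_
      rw [Finset.mem_range] at hk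
      refine le_antisymm (S.h2 k (by omega) _) ?_
      by_contra hcon
      exact h0 (hv_zero_of_gk hn hp hL hk hmd (by omega))
    rw [h2] at h1
    rw [List.map_cons, List.sum_cons, ← ih1, h1]
    change hv ℂ (Fin (n + 1)) d (m ::ₘ (l : Multiset ℕ)) + _ = _
    ring

/-- the superabundance -/
theorem super {n : ℕ} (hn : 2 ≤ n) (d : ℕ) : ∀ (L l : List ℕ),
    hv ℂ (Fin (n + 1)) d ((L ++ l : List ℕ) : Multiset ℕ) ≠ 0 →
      hv ℂ (Fin (n + 1)) d ((L ++ l : List ℕ) : Multiset ℕ) + L.sum ≤
        hv ℂ (Fin (n + 1)) d (l : Multiset ℕ) := by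
  have S := sys (n := n) (by omega) d
  intro L
  induction L with
  | nil => intro l _; simp
  | cons m L ih =>
    intro l h0
    have hmd : m ≤ d := by
      by_contra hcon
      exact h0 (hv_top (by omega) ((L ++ l : List ℕ) : Multiset ℕ))
    have h1 := S.rank_ge (s := ((L ++ l : List ℕ) : Multiset ℕ)) (m := m) (by omega)
      (Nat.pos_of_ne_zero h0)
    rw [List.sum_cons]
    change hv ℂ (Fin (n + 1)) d (m ::ₘ ((L ++ l : List ℕ) : Multiset ℕ)) ≠ 0 at h0
    change hv ℂ (Fin (n + 1)) d (m ::ₘ ((L ++ l : List ℕ) : Multiset ℕ)) + _ ≤ _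
    have h2 := ih l (by omega)
    omega

lemma hv_le_add {n : ℕ} (hn : 2 ≤ n) {d m : ℕ} (hm : m ≤ d + 1) (s : Multiset ℕ) :
    hv ℂ (Fin (n + 1)) d s ≤ hv ℂ (Fin (n + 1)) d (m ::ₘ s) + nc n m := by
  have S := sys (n := n) (by omega) d
  rw [S.h_sum s m hm, S.N_sum]
  refine Nat.add_le_add_left (Finset.sum_le_sum fun k hk => ?_) _
  rw [Finset.mem_range] at hk
  exact S.h2 k (by omega) s

lemma hv_le_rep {n : ℕ} (hn : 2 ≤ n) {d m : ℕ} (hm : m ≤ d + 1) (l : List ℕ) : ∀ j : ℕ,
    hv ℂ (Fin (n + 1)) d (l : Multiset ℕ) ≤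
      hv ℂ (Fin (n + 1)) d ((List.replicate j m ++ l : List ℕ) : Multiset ℕ) + j * nc n m := by
  intro j
  induction j with
  | zero => simp
  | succ j ih =>
    refine ih.trans ?_
    have h1 := hv_le_add hn hm (d := d) ((List.replicate j m ++ l : List ℕ) : Multiset ℕ)
    rw [List.replicate_succ, List.cons_append, Nat.succ_mul]
    change _ ≤ hv ℂ (Fin (n + 1)) d (m ::ₘ ((List.replicate j m ++ l : List ℕ) : Multiset ℕ)) + _
    omega

lemma dep_bound {n : ℕ} (hn : 2 ≤ n) {d m : ℕ} {l : List ℕ}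
    (hp : (m :: l).Pairwise (· ≥ ·)) (hmd : m ≤ d) {k : ℕ} (hkm : k < m)
    (hgk : gk ℂ (Fin (n + 1)) d k (l : Multiset ℕ) < ak (Fin (n + 1)) k) :
    hv ℂ (Fin (n + 1)) d (m ::ₘ (l : Multiset ℕ)) ≤ cc n * nc n m := by
  have h1 := hv_zero_of_gk hn (L := List.replicate (cc n) m) (m := m) (l := l) (d := d) (by
    rw [List.pairwise_append]
    refine ⟨List.pairwise_replicate.2 (Or.inr le_rfl), hp, ?_⟩
    intro a ha b hb
    rw [List.eq_of_mem_replicate ha]
    rcases List.mem_cons.1 hb with rfl | hb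
    · exact le_rfl
    · exact (List.pairwise_cons.1 hp).1 b hb) (by simp) hkm hmd hgk
  have h2 := hv_le_rep hn (d := d) (m := m) (by omega) (m :: l) (cc n)
  rw [h1, zero_add] at h2
  exact h2

/-- the sharper bound for the dimension -/
lemma dep_bound2 {n : ℕ} (hn : 2 ≤ n) {d m : ℕ} {l : List ℕ}
    (hp : (m :: l).Pairwise (· ≥ ·)) (hmd : m ≤ d) {k : ℕ} (hkm : k < m)
    (hgk : gk ℂ (Fin (n + 1)) d k (l : Multiset ℕ) < ak (Fin (n + 1)) k) :
    hv ℂ (Fin (n + 1)) d (m ::ₘ (l : Multiset ℕ)) ≤ (m - 1) ^ n + (n - 2) * nc n m := by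
  rcases Nat.eq_zero_or_pos k with hk | hk
  · subst hk
    have h1 : ak (Fin (n + 1)) 0 = 1 := by
      rw [ak_fin (by omega), Nat.add_zero, Nat.choose_self]
    rw [h1] at hgk
    have h2 := hv_of_gk (K := ℂ) (σ := Fin (n + 1)) (s := (l : Multiset ℕ)) d 0 (Nat.zero_add d)
      (by omega)
    rw [hv_zero] at h2
    have h3 : hv ℂ (Fin (n + 1)) d (m ::ₘ (l : Multiset ℕ)) ≤
        hv ℂ (Fin (n + 1)) d (l : Multiset ℕ) := hv_mono' (Multiset.le_cons_self _ _)
    omega
  have hp2 := List.pairwise_cons.1 hp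
  have hs : Antitone l.get := by
    intro i j hij
    rcases hij.eq_or_lt with rfl | h
    · exact le_rfl
    · exact List.pairwise_iff_get.1 hp2.2 i j h
  have hval : (Finset.univ : Finset (Fin l.length)).val.map l.get = (l : Multiset ℕ) := by
    rw [Fin.univ_val_map, List.ofFn_get]
  have hB := (core2 (n := n) (d := d) (k := k) hn hk (by omega) hs
    (T := Multiset.replicate (n - 1) m) (by rw [Multiset.card_replicate]) (by
      intro t ht j
      rw [Multiset.eq_of_mem_replicate ht]
      exact hp2.1 _ (List.get_mem l j)) (by rw [hval]; exact hgk)).1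
  rw [hval] at hB
  have h2 := hv_le_rep hn (d := d) (m := m) (by omega) (m :: l) (n - 2)
  have h3 : ((List.replicate (n - 2) m ++ m :: l : List ℕ) : Multiset ℕ) =
      (l : Multiset ℕ) + Multiset.replicate (n - 1) m := by
    rw [← Multiset.coe_add, Multiset.coe_replicate, ← Multiset.cons_coe,
      show n - 1 = (n - 2) + 1 by omega, Multiset.replicate_succ, Multiset.add_cons,
      Multiset.add_cons, add_comm]
  rw [h3] at h2
  have h4 : k ^ n ≤ (m - 1) ^ n := Nat.pow_le_pow_left (by omega) n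
  change hv ℂ (Fin (n + 1)) d ((m :: l : List ℕ) : Multiset ℕ) ≤ _
  omega

/-- the expected dimension or a bound for it -/
theorem mixed {n : ℕ} (hn : 2 ≤ n) (d M : ℕ) : ∀ l : List ℕ, l.Pairwise (· ≥ ·) →
    (∀ m ∈ l, m ≤ M) →
      hv ℂ (Fin (n + 1)) d (l : Multiset ℕ) + (l.map (nc n)).sum = (n + d).choose n ∨
        (hv ℂ (Fin (n + 1)) d (l : Multiset ℕ) ≤ cc n * nc n M ∧
          hv ℂ (Fin (n + 1)) d (l : Multiset ℕ) ≤ (M - 1) ^ n + (n - 2) * nc n M) := by
  have S := sys (n := n) (by omega) d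
  intro l
  induction l with
  | nil =>
    intro _ _
    left
    change hv ℂ (Fin (n + 1)) d 0 + 0 = _
    rw [add_zero]
    exact S.h7
  | cons m l ih =>
    intro hp hM
    change hv ℂ (Fin (n + 1)) d (m ::ₘ (l : Multiset ℕ)) + _ = _ ∨
      (hv ℂ (Fin (n + 1)) d (m ::ₘ (l : Multiset ℕ)) ≤ _ ∧
        hv ℂ (Fin (n + 1)) d (m ::ₘ (l : Multiset ℕ)) ≤ _)
    have hmono : hv ℂ (Fin (n + 1)) d (m ::ₘ (l : Multiset ℕ)) ≤
        hv ℂ (Fin (n + 1)) d (l : Multiset ℕ) := hv_mono' (Multiset.le_cons_self _ _)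
    rcases Nat.lt_or_ge d m with hmd | hmd
    · right
      rw [hv_top hmd]
      exact ⟨Nat.zero_le _, Nat.zero_le _⟩
    rcases ih (List.pairwise_cons.1 hp).2 (fun a ha => hM a (List.mem_cons_of_mem _ ha)) with h | h
    · by_cases hfull : ∀ k < m, gk ℂ (Fin (n + 1)) d k (l : Multiset ℕ) = ak (Fin (n + 1)) k
      · left
        have h1 := S.h_sum (l : Multiset ℕ) m (by omega)
        have h2 : ∑ k ∈ Finset.range m, gk ℂ (Fin (n + 1)) d k (l : Multiset ℕ) = nc n m := by
          rw [S.N_sum]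
          exact Finset.sum_congr rfl fun k hk => hfull k (Finset.mem_range.1 hk)
        rw [h2] at h1
        rw [List.map_cons, List.sum_cons, ← h, h1]
        ring
      · push Not at hfull
        obtain ⟨k, hk, hne⟩ := hfull
        right
        have h3 := S.h2 k (by omega) (l : Multiset ℕ)
        have hmM := hM m List.mem_cons_self
        refine ⟨(dep_bound hn hp hmd hk (by omega)).trans (Nat.mul_le_mul_left _ (S.N_mono hmM)),
          (dep_bound2 hn hp hmd hk (by omega)).trans (Nat.add_le_add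
            (Nat.pow_le_pow_left (by omega) n) (Nat.mul_le_mul_left _ (S.N_mono hmM)))⟩
    · right
      exact ⟨hmono.trans h.1, hmono.trans h.2⟩

/-- the dimension is at least the expected one -/
theorem vdim {n : ℕ} (hn : 2 ≤ n) (d : ℕ) : ∀ l : List ℕ,
    (n + d).choose n ≤ hv ℂ (Fin (n + 1)) d (l : Multiset ℕ) + (l.map (nc n)).sum := by
  intro l
  induction l with
  | nil =>
    change _ ≤ hv ℂ (Fin (n + 1)) d 0 + 0
    rw [(sys (n := n) (by omega) d).h7]
    exact le_rfl
  | cons m l ih =>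
    change _ ≤ hv ℂ (Fin (n + 1)) d (m ::ₘ (l : Multiset ℕ)) + _
    rw [List.map_cons, List.sum_cons]
    rcases Nat.lt_or_ge (d + 1) m with h | h
    · have h1 : (n + d).choose n ≤ nc n m := Nat.choose_le_choose n (by omega)
      omega
    · have h1 := hv_le_add hn h (l : Multiset ℕ)
      omega

/-- dropping the largest multiplicities -/
theorem tail_super {n : ℕ} (hn : 2 ≤ n) (d : ℕ) {L l : List ℕ} (hp : (L ++ l).Pairwise (· ≥ ·))
    (hL : cc n ≤ L.length ∨ l = [])
    (h0 : hv ℂ (Fin (n + 1)) d ((L ++ l : List ℕ) : Multiset ℕ) ≠ 0) :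
    hv ℂ (Fin (n + 1)) d (l : Multiset ℕ) + (l.map (nc n)).sum = (n + d).choose n ∧
      hv ℂ (Fin (n + 1)) d ((L ++ l : List ℕ) : Multiset ℕ) + L.sum + (l.map (nc n)).sum ≤
        (n + d).choose n := by
  have S := sys (n := n) (by omega) d
  have h1 : hv ℂ (Fin (n + 1)) d (l : Multiset ℕ) + (l.map (nc n)).sum = (n + d).choose n := by
    rcases hL with hL | rfl
    · exact tail_indep hn d l L hp hL h0
    · change hv ℂ (Fin (n + 1)) d 0 + 0 = _
      rw [add_zero]
      exact S.h7
  have h2 := super hn d L l h0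
  exact ⟨h1, by omega⟩

/-- equal multiplicities: the window -/
theorem window {n : ℕ} (hn : 2 ≤ n) {d k : ℕ} (hk : k ≤ d) :
    ∃ r₀ : ℕ, (∀ r ≤ r₀, hv ℂ (Fin (n + 1)) d (Multiset.replicate r (k + 1)) +
        r * nc n (k + 1) = (n + d).choose n) ∧
      (∀ r, r₀ + min (ak (Fin (n + 1)) k) (cc n + 1) ≤ r →
        hv ℂ (Fin (n + 1)) d (Multiset.replicate r (k + 1)) = 0) ∧
      (∀ r, r₀ < r → 2 * (hv ℂ (Fin (n + 1)) d (Multiset.replicate r (k + 1)) : ℤ) ≤
        2 * (ak (Fin (n + 1)) k - 1) * nc n k +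
          (ak (Fin (n + 1)) k - 1) * (ak (Fin (n + 1)) k - 2)) ∧
      (∀ r, r₀ < r → hv ℂ (Fin (n + 1)) d (Multiset.replicate r (k + 1)) ≤
        k ^ n + (n - 2) * nc n (k + 1)) := by
  classical
  have S := sys (n := n) (by omega) d
  obtain ⟨r₀, h1, h2, h3⟩ := S.homog hk
  have hN : 1 ≤ nc n (k + 1) := by
    have := S.le_N (k + 1)
    omega
  -- downward closed
  have hdown : ∀ r, hv ℂ (Fin (n + 1)) d (Multiset.replicate (r + 1) (k + 1)) +
      (r + 1) * nc n (k + 1) = (n + d).choose n →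
        hv ℂ (Fin (n + 1)) d (Multiset.replicate r (k + 1)) + r * nc n (k + 1) =
          (n + d).choose n := by
    intro r hr
    refine le_antisymm ?_ ?_
    · have e1 := hv_le_add hn (d := d) (m := k + 1) (by omega) (Multiset.replicate r (k + 1))
      rw [← Multiset.replicate_succ] at e1
      rw [← hr, Nat.succ_mul]
      omega
    · have e2 : ∀ r : ℕ, (n + d).choose n ≤
          hv ℂ (Fin (n + 1)) d (Multiset.replicate r (k + 1)) + r * nc n (k + 1) := by
        intro r
        induction r with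
        | zero => rw [Multiset.replicate_zero, S.h7]; omega
        | succ r ih =>
          refine ih.trans ?_
          have e1 := hv_le_add hn (d := d) (m := k + 1) (by omega) (Multiset.replicate r (k + 1))
          rw [← Multiset.replicate_succ] at e1
          rw [Nat.succ_mul]
          omega
      exact e2 r
  have hex : ∃ r, ¬ hv ℂ (Fin (n + 1)) d (Multiset.replicate r (k + 1)) +
      r * nc n (k + 1) = (n + d).choose n := by
    refine ⟨(n + d).choose n + 1, fun h => ?_⟩
    have : (n + d).choose n + 1 ≤ ((n + d).choose n + 1) * nc n (k + 1) :=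
      Nat.le_mul_of_pos_right _ hN
    omega
  obtain ⟨r₂, hr₂, hmin⟩ : ∃ r₂, (¬ hv ℂ (Fin (n + 1)) d (Multiset.replicate r₂ (k + 1)) +
      r₂ * nc n (k + 1) = (n + d).choose n) ∧ ∀ r < r₂, hv ℂ (Fin (n + 1)) d
        (Multiset.replicate r (k + 1)) + r * nc n (k + 1) = (n + d).choose n :=
    ⟨Nat.find hex, Nat.find_spec hex, fun r hr => not_not.1 (Nat.find_min hex hr)⟩
  have hpos : 0 < r₂ := by
    rcases Nat.eq_zero_or_pos r₂ with h | h
    · exfalso
      apply hr₂
      rw [h]
      exact h1 0 (Nat.zero_le _)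
    · exact h
  have hdep : ∀ r, r₂ ≤ r → ¬ hv ℂ (Fin (n + 1)) d (Multiset.replicate r (k + 1)) +
      r * nc n (k + 1) = (n + d).choose n := by
    intro r hr
    obtain ⟨j, rfl⟩ := Nat.exists_eq_add_of_le hr
    clear hr
    induction j with
    | zero => exact hr₂
    | succ j ih => exact fun h => ih (hdown _ h)
  have hr0 : r₀ < r₂ := by
    by_contra hcon
    exact hr₂ (h1 r₂ (by omega))
  refine ⟨r₂ - 1, fun r hr => hmin r (by omega), fun r hr => ?_, fun r hr => h3 r (by omega),
    fun r hr => ?_⟩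
  · rcases min_choice (ak (Fin (n + 1)) k) (cc n + 1) with hmi | hmi
    · rw [hmi] at hr
      exact h2 r (by omega)
    · rw [hmi] at hr
      by_contra h0
      obtain ⟨j, hj⟩ : ∃ j, r = cc n + j := ⟨r - cc n, by omega⟩
      subst hj
      have h4 := tail_indep hn d (List.replicate j (k + 1)) (List.replicate (cc n) (k + 1)) (by
        rw [← List.replicate_add]
        exact List.pairwise_replicate.2 (Or.inr le_rfl)) (by simp) (by
        rw [← List.replicate_add]
        exact h0)
      rw [List.map_replicate, List.sum_replicate, smul_eq_mul] at h4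
      exact hdep j (by omega) h4
  · rcases mixed hn d (k + 1) (List.replicate r (k + 1))
      (List.pairwise_replicate.2 (Or.inr le_rfl))
      (fun m hm => (List.eq_of_mem_replicate hm).le) with h | h
    · exfalso
      rw [List.map_replicate, List.sum_replicate, smul_eq_mul] at h
      exact hdep r (by omega) h
    · exact h.2

theorem sharp {n : ℕ} (hn : 2 ≤ n) : ∃ m d : ℕ, 1 ≤ m ∧ ∀ r, 2 ≤ r → r < 2 ^ n →
    hv ℂ (Fin (n + 1)) d (Multiset.replicate r m) ≠ 0 ∧
      (n + d).choose n < hv ℂ (Fin (n + 1)) d (Multiset.replicate r m) + r * nc n m := by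
  obtain ⟨m, hm, hc⟩ := count_forms n (by omega)
  refine ⟨m, 2 * m - 2, by omega, fun r hr2 hr => ?_⟩
  have h2 := two_points (n := n) (by omega) hm
  have h3 := vdim hn (2 * m - 2) (List.replicate r m)
  rw [List.map_replicate, List.sum_replicate, smul_eq_mul, Multiset.coe_replicate] at h3
  obtain ⟨j, rfl⟩ := Nat.exists_eq_add_of_le' hr2
  have h4 := hv_le_rep hn (d := 2 * m - 2) (m := m) (by omega) (List.replicate 2 m) j
  rw [← List.replicate_add, Multiset.coe_replicate, Multiset.coe_replicate] at h4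
  constructor
  · intro h0
    rw [h0, zero_add] at h3
    have h5 : (j + 2) * nc n m ≤ (2 ^ n - 1) * nc n m := Nat.mul_le_mul_right _ (by omega)
    omega
  · have h6 : (j + 2) * nc n m = j * nc n m + 2 * nc n m := Nat.add_mul _ _ _
    omega

/-- the numbers of the conditions and of the forms -/
theorem two_degrees {n c m r d d' : ℕ} (hn : 2 ≤ n) (hm : 1 ≤ m) (hd : d < d')
    (h1 : r * nc n m ≤ (n + d).choose n + c * nc n m)
    (h2 : (n + d').choose n ≤ r * nc n m + c * nc n m) :
    n * (n * (r - c)) ^ (n - 1) ≤ (2 * c) ^ n * (m + n - 1) ^ n := by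
  obtain ⟨q, rfl⟩ : ∃ q, n = q + 1 := ⟨n - 1, by omega⟩
  obtain ⟨k, rfl⟩ : ∃ k, m = k + 1 := ⟨m - 1, by omega⟩
  have hN : nc (q + 1) (k + 1) = (k + (q + 1)).choose (q + 1) := by
    unfold nc
    congr 1
    omega
  set N := nc (q + 1) (k + 1) with hNdef
  have hNpos : 0 < N := by
    rw [hN]
    exact Nat.choose_pos (by omega)
  set B := (d + 1 + q).choose q with hBdef
  -- two consecutive values
  have hB1 : (q + 1 + (d + 1)).choose (q + 1) = (q + 1 + d).choose (q + 1) + B := by
    rw [show q + 1 + (d + 1) = (q + 1 + d) + 1 by omega, Nat.choose_succ_succ', hBdef,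
      show d + 1 + q = q + 1 + d by omega]
    omega
  have hmono : (q + 1 + (d + 1)).choose (q + 1) ≤ (q + 1 + d').choose (q + 1) :=
    Nat.choose_le_choose _ (by omega)
  have hB2 : B ≤ 2 * c * N := by
    have : B + (q + 1 + d).choose (q + 1) ≤ r * N + c * N := by omega
    have h3 : r * N ≤ (q + 1 + d).choose (q + 1) + c * N := h1
    nlinarith
  -- `n D = (d + 1) B`
  have hB3 : (q + 1) * (q + 1 + d).choose (q + 1) = (d + 1) * B := by
    have := Nat.choose_succ_right_eq (q + 1 + d) q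
    rw [show q + 1 + d - q = d + 1 by omega, show q + 1 + d = d + 1 + q by omega] at this
    rw [show q + 1 + d = d + 1 + q by omega, hBdef]
    linarith
  have hr : (q + 1) * (r - c) ≤ 2 * c * (d + 1) := by
    have h4 : (r - c) * N ≤ (q + 1 + d).choose (q + 1) := by
      rw [Nat.sub_mul]
      omega
    have h5 : ((q + 1) * (r - c)) * N ≤ (2 * c * (d + 1)) * N := by
      calc ((q + 1) * (r - c)) * N = (q + 1) * ((r - c) * N) := by ring
        _ ≤ (q + 1) * (q + 1 + d).choose (q + 1) := Nat.mul_le_mul_left _ h4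
        _ = (d + 1) * B := hB3
        _ ≤ (d + 1) * (2 * c * N) := Nat.mul_le_mul_left _ hB2
        _ = (2 * c * (d + 1)) * N := by ring
    exact Nat.le_of_mul_le_mul_right h5 hNpos
  have hfac1 : (d + 1) ^ q ≤ q.factorial * B := by
    have e1 := Nat.ascFactorial_eq_factorial_mul_choose (d + 1) q
    rw [hBdef, ← e1]
    exact (Nat.pow_le_pow_left (by omega) q).trans (Nat.pow_succ_le_ascFactorial (d + 2) q)
  have hfac2 : (q + 1).factorial * N ≤ (k + (q + 1)) ^ (q + 1) := by
    rw [hN, ← Nat.ascFactorial_eq_factorial_mul_choose k (q + 1)]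
    exact Nat.ascFactorial_le_pow_add k (q + 1)
  rw [Nat.add_sub_cancel, show k + 1 + (q + 1) - 1 = k + (q + 1) by omega]
  calc (q + 1) * ((q + 1) * (r - c)) ^ q ≤ (q + 1) * (2 * c * (d + 1)) ^ q :=
        Nat.mul_le_mul_left _ (Nat.pow_le_pow_left hr q)
    _ = (2 * c) ^ q * ((q + 1) * (d + 1) ^ q) := by rw [mul_pow]; ring
    _ ≤ (2 * c) ^ q * ((q + 1) * (q.factorial * B)) :=
        Nat.mul_le_mul_left _ (Nat.mul_le_mul_left _ hfac1)
    _ ≤ (2 * c) ^ q * ((q + 1) * (q.factorial * (2 * c * N))) :=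
        Nat.mul_le_mul_left _ (Nat.mul_le_mul_left _ (Nat.mul_le_mul_left _ hB2))
    _ = (2 * c) ^ (q + 1) * ((q + 1).factorial * N) := by
        rw [Nat.factorial_succ, pow_succ]; ring
    _ ≤ (2 * c) ^ (q + 1) * (k + (q + 1)) ^ (q + 1) := Nat.mul_le_mul_left _ hfac2

end

end K4H38CX
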