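import Mathlib
import Pool.Agent.K4H38.FP.Fin

/-!
An inequality of Nagata type: if all but the `c` largest multiplicities always impose independent
conditions, then the sum of their `n`-th powers is at most `d ^ n`.
-/

set_option autoImplicit false
set_option linter.unusedSectionVars false

namespace K4H38CX

open MvPolynomial H350MG Module K4H38FP

noncomputable section

section pow

variable {K : Type} [Field K] [CharZero K] {σ : Type} [Fintype σ] [DecidableEq σ]

theorem Dpow_mul (v : σ → K) : ∀ (N a b : ℕ) (F G : MvPolynomial σ K), a + b = N →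
    (D v ^ (a + 1)) F = 0 → (D v ^ (b + 1)) G = 0 → (D v ^ (N + 1)) (F * G) = 0 := by
  intro N
  induction N with
  | zero =>
    intro a b F G hab hF hG
    obtain rfl : a = 0 := by omega
    obtain rfl : b = 0 := by omega
    simp only [zero_add, pow_one] at *
    rw [D_mul, hF, hG, zero_mul, mul_zero, add_zero]
  | succ N ih =>
    intro a b F G hab hF hG
    rw [pow_succ, Module.End.mul_apply, D_mul, map_add]
    have h1 : (D v ^ (N + 1)) (D v F * G) = 0 := by
      rcases Nat.eq_zero_or_pos a with ha | ha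
      · subst ha
        rw [zero_add, pow_one] at hF
        rw [hF, zero_mul, map_zero]
      · obtain ⟨a', rfl⟩ : ∃ a', a = a' + 1 := ⟨a - 1, by omega⟩
        refine ih a' b _ _ (by omega) ?_ hG
        rw [pow_succ, Module.End.mul_apply] at hF
        exact hF
    have h2 : (D v ^ (N + 1)) (F * D v G) = 0 := by
      rcases Nat.eq_zero_or_pos b with hb | hb
      · subst hb
        rw [zero_add, pow_one] at hG
        rw [hG, mul_zero, map_zero]
      · obtain ⟨b', rfl⟩ : ∃ b', b = b' + 1 := ⟨b - 1, by omega⟩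
        refine ih a b' _ _ (by omega) hF ?_
        rw [pow_succ, Module.End.mul_apply] at hG
        exact hG
    rw [h1, h2, add_zero]

theorem Dpow_pow (v : σ → K) (a : ℕ) (F : MvPolynomial σ K) (hF : (D v ^ (a + 1)) F = 0) (q : ℕ) :
    (D v ^ (q * a + 1)) (F ^ q) = 0 := by
  induction q with
  | zero =>
    rw [zero_mul, zero_add, pow_one, pow_zero, D_apply]
    simp
  | succ q ih =>
    rw [pow_succ]
    refine Dpow_mul v _ (q * a) a _ _ (by ring) ih hF

theorem hv_mul_ne {d : ℕ} {s : Multiset ℕ} (q : ℕ) (hq : 1 ≤ q) (h : hv K σ d s ≠ 0) :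
    hv K σ (q * d) (s.map (q * ·)) ≠ 0 := by
  obtain ⟨c, hc, hc2⟩ := hv_spec (K := K) (σ := σ) (q * d) (s.map (q * ·))
  set c' : Multiset ((σ → K) × ℕ) := c.map fun x => (x.1, x.2 / q) with hc'
  have hs : ∀ m ∈ s, m ≤ d := by
    intro m hm
    by_contra hlt
    push Not at hlt
    obtain ⟨t, rfl⟩ := Multiset.exists_cons_of_mem hm
    exact h (hv_top hlt t)
  have hsnd : c'.map Prod.snd = s := by
    have h1 : c'.map Prod.snd = (c.map Prod.snd).map (· / q) := by
      rw [hc', Multiset.map_map, Multiset.map_map]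
      rfl
    rw [h1, hc, Multiset.map_map]
    have h2 : s.map ((· / q) ∘ (q * ·)) = s.map id := by
      refine Multiset.map_congr rfl fun m _ => ?_
      simp only [Function.comp, id]
      exact Nat.mul_div_cancel_left m hq
    rw [h2, Multiset.map_id]
  have hpos : 0 < finrank K (KS d c') := by
    have := hv_le (K := K) (d := d) c' hsnd
    omega
  obtain ⟨F, hF0⟩ := finrank_pos_iff_exists_ne_zero.1 hpos
  have hFm := mem_KS.1 F.2
  have hFq : (F.1 ^ q) ∈ KS (q * d) c := by
    rw [mem_KS]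
    refine ⟨?_, ?_⟩
    · have h1 : (F.1).IsHomogeneous d := hFm.1
      have h2 := h1.pow q
      rw [mul_comm]
      exact h2
    · intro x hx
      have hx2 : x.2 ∈ s.map (q * ·) := by
        rw [← hc]
        exact Multiset.mem_map_of_mem _ hx
      obtain ⟨m, hm, hmx⟩ := Multiset.mem_map.1 hx2
      have hmx' : x.2 = q * m := hmx.symm
      have hmd := hs m hm
      have h1 := hFm.2 (x.1, x.2 / q) (Multiset.mem_map.2 ⟨x, hx, rfl⟩)
      simp only at h1
      rw [hmx', Nat.mul_div_cancel_left m hq] at h1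
      have h2 : d + 1 - m = (d - m) + 1 := by omega
      rw [h2] at h1
      have h3 := Dpow_pow x.1 (d - m) F.1 h1 q
      have h4 : q * d + 1 - x.2 = q * (d - m) + 1 := by
        rw [hmx', Nat.mul_sub]
        have : q * m ≤ q * d := Nat.mul_le_mul_left _ hmd
        omega
      rw [h4]
      exact h3
  have hFq0 : (F.1 ^ q) ≠ 0 := pow_ne_zero _ fun h0 => hF0 (Subtype.ext h0)
  rw [← hc2]
  have : 0 < finrank K (KS (q * d) c) :=
    finrank_pos_iff_exists_ne_zero.2 ⟨⟨_, hFq⟩, fun h0 => hFq0 (congrArg Subtype.val h0)⟩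
  omega

end pow

theorem le_of_forall_pow {n d S : ℕ} (h : ∀ q : ℕ, 1 ≤ q → q ^ n * S ≤ (q * d + n) ^ n) :
    S ≤ d ^ n := by
  have h1 : Filter.Tendsto (fun q : ℕ => ((d : ℝ) + (n : ℝ) / q) ^ n) Filter.atTop
      (nhds ((d : ℝ) ^ n)) := by
    have h2 : Filter.Tendsto (fun q : ℕ => (d : ℝ) + (n : ℝ) / q) Filter.atTop (nhds (d : ℝ)) := by
      have := (tendsto_const_nhds (x := (d : ℝ))).add
        (tendsto_const_div_atTop_nhds_zero_nat (n : ℝ))
      simpa using this
    exact h2.pow n
  have h3 : (S : ℝ) ≤ (d : ℝ) ^ n := by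
    refine ge_of_tendsto h1 ?_
    filter_upwards [Filter.eventually_ge_atTop 1] with q hq
    have hq0 : (0 : ℝ) < q := by exact_mod_cast hq
    have h4 : ((q : ℝ) ^ n * S) ≤ ((q : ℝ) * d + n) ^ n := by exact_mod_cast h q hq
    have h5 : (q : ℝ) * d + n = q * (d + n / q) := by field_simp
    rw [h5, mul_pow] at h4
    exact le_of_mul_le_mul_left h4 (by positivity)
  exact_mod_cast h3

/-- TASK N -/
theorem volume_of {n : ℕ} (hn : 2 ≤ n) (c : ℕ)
    (htail : ∀ (d : ℕ) (l L : List ℕ), (L ++ l).Pairwise (· ≥ ·) → c ≤ L.length →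
      hv ℂ (Fin (n + 1)) d ((L ++ l : List ℕ) : Multiset ℕ) ≠ 0 →
        hv ℂ (Fin (n + 1)) d (l : Multiset ℕ) + (l.map (nc n)).sum = (n + d).choose n)
    (d : ℕ) {L l : List ℕ} (hp : (L ++ l).Pairwise (· ≥ ·)) (hL : c ≤ L.length)
    (h0 : hv ℂ (Fin (n + 1)) d ((L ++ l : List ℕ) : Multiset ℕ) ≠ 0) :
    (l.map (· ^ n)).sum ≤ d ^ n := by
  refine le_of_forall_pow (n := n) fun q hq => ?_
  have hp' : (L.map (q * ·) ++ l.map (q * ·)).Pairwise (· ≥ ·) := by
    rw [← List.map_append, List.pairwise_map]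
    exact hp.imp fun h => Nat.mul_le_mul_left q h
  have h0' : hv ℂ (Fin (n + 1)) (q * d)
      ((L.map (q * ·) ++ l.map (q * ·) : List ℕ) : Multiset ℕ) ≠ 0 := by
    rw [← List.map_append, ← Multiset.map_coe]
    exact hv_mul_ne q hq h0
  have h1 := htail (q * d) (l.map (q * ·)) (L.map (q * ·)) hp' (by rwa [List.length_map]) h0'
  have h2 : ((l.map (q * ·)).map (nc n)).sum ≤ (n + q * d).choose n := by omega
  have h3 : n.factorial * (n + q * d).choose n ≤ (q * d + n) ^ n := by
    have h4 := Nat.ascFactorial_eq_factorial_mul_choose (q * d) n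
    rw [add_comm n, ← h4]
    exact Nat.ascFactorial_le_pow_add (q * d) n
  have h5 : ∀ l : List ℕ, q ^ n * (l.map (· ^ n)).sum ≤
      n.factorial * ((l.map (q * ·)).map (nc n)).sum := by
    intro l
    induction l with
    | nil => simp
    | cons m l ih =>
      simp only [List.map_cons, List.sum_cons, mul_add]
      refine add_le_add ?_ ih
      rw [← mul_pow, nc, add_comm n, ← Nat.ascFactorial_eq_factorial_mul_choose']
      exact Nat.pow_succ_le_ascFactorial (q * m) n
  calc q ^ n * (l.map (· ^ n)).sum ≤ n.factorial * ((l.map (q * ·)).map (nc n)).sum := h5 l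
    _ ≤ n.factorial * (n + q * d).choose n := Nat.mul_le_mul_left _ h2
    _ ≤ _ := h3

end

end K4H38CX
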